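import Pool.Agent.U681.UT.Bq

/-! Prime ideals in short intervals of norms; the stability of the means. -/

set_option autoImplicit false

namespace Pool.Agent.U681.UT

open Finset NumberField IsDedekindDomain Filter Topology Pool.Agent.H341R2
open Pool.Agent.W353.TP
open Pool.Agent.W529.ST
open Pool.Agent.H921R2.TatePole (nm R_eq_hc R_le kerPrime nm_eq)

/-- primes in short intervals -/
theorem short (M H : ℕ) {R : ℕ} (hR : 2 ≤ R) (hRM : R ≤ M) :
    (((Ioc M (M + H)).filter Nat.Prime).card : ℝ) ≤ H / Real.log R + R ^ 2 := by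
  classical
  obtain ⟨l, h1, hb, -, -, hnn, hle⟩ := Pool.Agent.H376R2.MR.sel_weights R hR
  have hll : ∀ r s, |l r * l s| ≤ 1 := fun r s => by
    rw [abs_mul]
    exact mul_le_one₀ (hb r) (abs_nonneg _) (hb s)
  have e1 : (((Ioc M (M + H)).filter Nat.Prime).card : ℝ) ≤ ∑ n ∈ Ioc M (M + H), wt l R n ^ 2 := by
    rw [Finset.card_eq_sum_ones, Finset.sum_filter]
    push_cast
    refine Finset.sum_le_sum fun n hn => ?_
    rw [mem_Ioc] at hn
    split_ifs with h
    · rw [wt_rough h1 (by omega) (fun r h2 hr hd => ?_), one_pow]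
      rcases (Nat.dvd_prime h).1 hd with h3 | h3 <;> omega
    · positivity
  have e2 : ∑ n ∈ Ioc M (M + H), wt l R n ^ 2 =
      (∑ n ∈ Icc 1 (M + H), wt l R n ^ 2) - ∑ n ∈ Icc 1 M, wt l R n ^ 2 := by
    have h3 : ∀ c : ℕ, Icc 1 c = Ioc 0 c := by
      intro c
      ext x
      simp only [mem_Icc, mem_Ioc]
      omega
    rw [h3, h3, ← Finset.sum_Ioc_consecutive _ (Nat.zero_le M) (Nat.le_add_right M H)]
    ring
  have e3 : ∀ N : ℕ, ∑ n ∈ Icc 1 N, wt l R n ^ 2 =
      ∑ r ∈ Icc 1 R, ∑ s ∈ Icc 1 R, l r * l s * ((N / Nat.lcm r s : ℕ) : ℝ) := by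
    intro N
    have := wt_sum l R N fun _ => 1
    simp only [mul_one] at this
    rw [this]
    refine Finset.sum_congr rfl fun r _ => Finset.sum_congr rfl fun s _ => ?_
    rw [Finset.sum_const, Nat.card_Icc, nsmul_eq_mul, mul_one, Nat.add_sub_cancel]
  refine e1.trans ?_
  rw [e2, e3, e3, ← Finset.sum_sub_distrib]
  have e4 : ∀ r ∈ Icc 1 R, (∑ s ∈ Icc 1 R, l r * l s * (((M + H) / Nat.lcm r s : ℕ) : ℝ)) -
      ∑ s ∈ Icc 1 R, l r * l s * ((M / Nat.lcm r s : ℕ) : ℝ) ≤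
      ∑ s ∈ Icc 1 R, ((H : ℝ) * (l r * l s / (Nat.lcm r s : ℝ)) + 1) := by
    intro r hr
    rw [← Finset.sum_sub_distrib]
    refine Finset.sum_le_sum fun s hs => ?_
    rw [mem_Icc] at hr hs
    have hlcm : 0 < Nat.lcm r s := Nat.lcm_pos (by omega) (by omega)
    have hlcmR : (0 : ℝ) < (Nat.lcm r s : ℝ) := by exact_mod_cast hlcm
    have hfl : ∀ A : ℕ, ((A / Nat.lcm r s : ℕ) : ℝ) ≤ A / (Nat.lcm r s : ℝ) ∧
        (A : ℝ) / (Nat.lcm r s : ℝ) < ((A / Nat.lcm r s : ℕ) : ℝ) + 1 := by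
      intro A
      refine ⟨Nat.cast_div_le, ?_⟩
      have := Nat.lt_floor_add_one ((A : ℝ) / (Nat.lcm r s : ℝ))
      rwa [Nat.floor_div_eq_div] at this
    obtain ⟨a1, a2⟩ := hfl (M + H)
    obtain ⟨a3, a4⟩ := hfl M
    have h4 : |(((M + H) / Nat.lcm r s : ℕ) : ℝ) - ((M / Nat.lcm r s : ℕ) : ℝ) -
        H / (Nat.lcm r s : ℝ)| ≤ 1 := by
      have e5 : ((M + H : ℕ) : ℝ) / (Nat.lcm r s : ℝ) = M / (Nat.lcm r s : ℝ) +
          H / (Nat.lcm r s : ℝ) := by
        push_cast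
        ring
      rw [e5] at a1 a2
      rw [abs_le]
      constructor <;> linarith
    have h5 : l r * l s * (((M + H) / Nat.lcm r s : ℕ) : ℝ) -
        l r * l s * ((M / Nat.lcm r s : ℕ) : ℝ) - H * (l r * l s / (Nat.lcm r s : ℝ)) =
        l r * l s * ((((M + H) / Nat.lcm r s : ℕ) : ℝ) - ((M / Nat.lcm r s : ℕ) : ℝ) -
        H / (Nat.lcm r s : ℝ)) := by ring
    have h6 : |l r * l s * ((((M + H) / Nat.lcm r s : ℕ) : ℝ) - ((M / Nat.lcm r s : ℕ) : ℝ) -
        H / (Nat.lcm r s : ℝ))| ≤ 1 := by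
      rw [abs_mul]
      exact mul_le_one₀ (hll r s) (abs_nonneg _) h4
    have h7 := (abs_le.1 h6).2
    linarith
  refine (Finset.sum_le_sum e4).trans ?_
  have h4 : ∑ r ∈ Icc 1 R, ∑ s ∈ Icc 1 R, ((H : ℝ) * (l r * l s / (Nat.lcm r s : ℝ)) + 1) =
      H * (∑ r ∈ Icc 1 R, ∑ s ∈ Icc 1 R, l r * l s / (Nat.lcm r s : ℝ)) + (R : ℝ) ^ 2 := by
    simp only [Finset.sum_add_distrib]
    rw [card_sq, Finset.mul_sum]
    congr 1
    exact Finset.sum_congr rfl fun r _ => (Finset.mul_sum _ _ _).symm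
  rw [h4]
  have h5 : (H : ℝ) * (∑ r ∈ Icc 1 R, ∑ s ∈ Icc 1 R, l r * l s / (Nat.lcm r s : ℝ)) ≤
      H * (1 / Real.log R) := mul_le_mul_of_nonneg_left hle (Nat.cast_nonneg _)
  rw [mul_one_div] at h5
  linarith

section
variable {K : Type} [Field K] [NumberField K]

theorem nm_ker (p : Nat.Primes) (ψ : 𝓞 K →+* ZMod (p : ℕ)) :
    Ideal.absNorm (kerPrime p ψ).1.1.asIdeal = (p : ℕ) := by
  have h1 := (nm_eq (kerPrime p ψ).1.1).1
  rw [(kerPrime p ψ).2, (kerPrime p ψ).1.2, pow_one] at h1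
  exact h1

/-- prime ideals in short intervals of norms -/
theorem short_ideals (M H : ℕ) {R : ℕ} (hR : 2 ≤ R) (hRM : R ≤ M)
    {t t' : Finset (HeightOneSpectrum (𝓞 K))} (ht : ∀ v, v ∈ t ↔ Ideal.absNorm v.asIdeal ≤ M)
    (ht' : ∀ v, v ∈ t' ↔ Ideal.absNorm v.asIdeal ≤ M + H) :
    (t'.card : ℝ) - t.card ≤ Module.finrank ℚ K * (H / Real.log R + R ^ 2 + (√(M + H : ℕ) + 1)) := by
  classical
  set n : ℝ := (Module.finrank ℚ K : ℝ) with hn
  have hn0 : 0 < n := fr_pos (K := K)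
  let φ : HeightOneSpectrum (𝓞 K) → ℝ := fun v => if M < Ideal.absNorm v.asIdeal then 1 else 0
  have hφ : ∀ v, |φ v| ≤ 1 := fun v => by
    change |if M < Ideal.absNorm v.asIdeal then (1 : ℝ) else 0| ≤ 1
    split_ifs <;> simp
  have h1 := sum_low (F := K) φ hφ (M + H)
  rw [fs_eq φ (M + H) ht'] at h1
  have h2 : ∑ v ∈ t', φ v = (t'.card : ℝ) - t.card := by
    have e1 : ∑ v ∈ t', φ v = ((t'.filter fun v => M < Ideal.absNorm v.asIdeal).card : ℝ) := by
      change ∑ v ∈ t', (if M < Ideal.absNorm v.asIdeal then (1 : ℝ) else 0) = _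
      rw [← Finset.sum_filter, Finset.sum_const, nsmul_eq_mul, mul_one]
    have e2 : t'.filter (fun v => ¬ M < Ideal.absNorm v.asIdeal) = t := by
      ext v
      rw [mem_filter, ht', ht]
      omega
    have e3 := Finset.card_filter_add_card_filter_not (s := t')
      (fun v => M < Ideal.absNorm v.asIdeal)
    rw [e2] at e3
    rw [e1, ← e3]
    push_cast
    ring
  rw [h2] at h1
  have h3 : ∑ p ∈ PR (M + H), ∑ ψ : 𝓞 K →+* ZMod (p : ℕ), φ (kerPrime p ψ).1.1 ≤
      n * (((Ioc M (M + H)).filter Nat.Prime).card : ℝ) := by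
    have e1 : ∀ p ∈ PR (M + H), ∑ ψ : 𝓞 K →+* ZMod (p : ℕ), φ (kerPrime p ψ).1.1 ≤
        n * (if M < (p : ℕ) then 1 else 0) := by
      intro p _
      have e2 : ∀ ψ : 𝓞 K →+* ZMod (p : ℕ), φ (kerPrime p ψ).1.1 =
          if M < (p : ℕ) then 1 else 0 := by
        intro ψ
        change (if M < Ideal.absNorm (kerPrime p ψ).1.1.asIdeal then (1 : ℝ) else 0) = _
        rw [nm_ker]
      rw [Finset.sum_congr rfl fun ψ _ => e2 ψ, Finset.sum_const, Finset.card_univ, nsmul_eq_mul]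
      refine mul_le_mul_of_nonneg_right ?_ (by split_ifs <;> norm_num)
      have e4 : Fintype.card (𝓞 K →+* ZMod (p : ℕ)) ≤ Module.finrank ℚ K := card_hom_le p
      rw [hn]
      exact_mod_cast e4
    refine (Finset.sum_le_sum e1).trans (le_of_eq ?_)
    rw [← Finset.mul_sum]
    congr 1
    have e3 : ∑ p ∈ PR (M + H), (if M < (p : ℕ) then (1 : ℝ) else 0) =
        ∑ p ∈ (range (M + H + 1)).filter Nat.Prime, (if M < p then (1 : ℝ) else 0) := by
      unfold PR
      exact Finset.sum_subtype_eq_sum_filter (fun p => if M < p then (1 : ℝ) else 0)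
    rw [e3, ← Finset.sum_filter, Finset.filter_filter, Finset.sum_const, nsmul_eq_mul, mul_one]
    congr 2
    ext p
    simp only [mem_filter, mem_range, mem_Ioc]
    constructor
    · rintro ⟨h1, h2, h3⟩
      exact ⟨⟨h3, by omega⟩, h2⟩
    · rintro ⟨⟨h1, h2⟩, h3⟩
      exact ⟨by omega, h3, h1⟩
  have h4 := short M H hR hRM
  have h5 := (abs_le.1 h1).2
  have h6 : n * (((Ioc M (M + H)).filter Nat.Prime).card : ℝ) ≤ n * (H / Real.log R + R ^ 2) :=
    mul_le_mul_of_nonneg_left h4 hn0.le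
  have h7 : (Module.finrank ℚ K : ℝ) * 1 * (√((M + H : ℕ) : ℝ) + 1) =
      n * (√((M + H : ℕ) : ℝ) + 1) := by rw [mul_one]
  rw [h7] at h5
  linarith

variable (K) in
/-- **The means are stable under small changes of the scale.** -/
theorem mean_stable {ε : ℝ} (hε : 0 < ε) (hε1 : ε ≤ 1) : ∀ᶠ M : ℕ in atTop, ∀ M' : ℕ, M ≤ M' →
    (M' : ℝ) ≤ (1 + ε / (256 * Module.finrank ℚ K)) * M →
    ∀ φ : HeightOneSpectrum (𝓞 K) → ℝ, (∀ v, |φ v| ≤ 1) →
      |mean K φ M' - mean K φ M| ≤ ε := by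
  classical
  set n : ℝ := (Module.finrank ℚ K : ℝ) with hn
  have hn0 : 0 < n := fr_pos (K := K)
  have hn1 : 1 ≤ n := by
    have h0 : 1 ≤ Module.finrank ℚ K := Module.finrank_pos
    rw [hn]
    exact_mod_cast h0
  have e1 : Tendsto (fun x : ℝ => Real.log x / x ^ (1 / 4 : ℝ)) atTop (𝓝 0) :=
    (isLittleO_log_rpow_atTop (by norm_num)).tendsto_div_nhds_zero
  have e2 : Tendsto (fun x : ℝ => x ^ (1 / 4 : ℝ)) atTop atTop :=
    tendsto_rpow_atTop (by norm_num)
  have e1' := (e1.comp (tendsto_natCast_atTop_atTop (R := ℝ))).eventually_lt_const zero_lt_one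
  have e2' := (e2.comp (tendsto_natCast_atTop_atTop (R := ℝ))).eventually_ge_atTop
    (128 * n / ε)
  filter_upwards [pc_ge,
    (Pool.Agent.U681.GF.card_ratio (F := K)).eventually_const_lt (show (1 / 2 : ℝ) < 1 by norm_num),
    (Pool.Agent.W529.ST.pc_atTop).eventually_gt_atTop 0, eventually_ge_atTop 3, e1', e2',
    (Real.tendsto_log_atTop.comp (tendsto_natCast_atTop_atTop (R := ℝ))).eventually_ge_atTop 8]
    with M h2 h3 h4 h5 h6 h7 h8 M' hMM' hM' φ hφ
  simp only [Function.comp_apply] at h6 h7 h8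
  obtain ⟨t, ht, htc, hmean⟩ := mean_def (F := K) (fun _ => 0) M
  obtain ⟨t', ht', -, hmean'⟩ := mean_def (F := K) (fun _ => 0) M'
  have hM3 : (3 : ℝ) ≤ M := by exact_mod_cast h5
  have hM0 : (0 : ℝ) < M := by linarith
  set L : ℝ := Real.log M with hL
  rw [htc] at h3
  have htp : (M : ℝ) / (8 * L) ≤ t.card := by
    have h7 : 1 / 2 * (Nat.primeCounting M : ℝ) ≤ t.card := by
      rw [lt_div_iff₀ h4] at h3
      exact h3.le
    have h8 : (M : ℝ) / (8 * L) = 1 / 2 * (M / (4 * L)) := by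
      field_simp
      norm_num
    rw [h8]
    linarith
  have htp0 : (0 : ℝ) < t.card := lt_of_lt_of_le (by positivity) htp
  set b : ℝ := (M : ℝ) ^ (1 / 4 : ℝ) with hbd
  have hb0 : 0 < b := by positivity
  rw [div_lt_one hb0] at h6
  have hb4 : b ^ 4 = M := by
    rw [hbd, ← Real.rpow_natCast, ← Real.rpow_mul hM0.le]
    norm_num
  have hb8 : 8 ≤ b := by linarith
  have hb2 : √(M : ℝ) = b ^ 2 := by
    rw [← hb4, show b ^ 4 = (b ^ 2) ^ 2 by ring, Real.sqrt_sq (by positivity)]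
  -- the sieve level
  set R : ℕ := ⌊b⌋₊ with hR
  have hR1 : (R : ℝ) ≤ b := Nat.floor_le hb0.le
  have hR2 : b / 2 ≤ R := by
    have := Nat.lt_floor_add_one b
    rw [← hR] at this
    linarith
  have hR3 : 2 ≤ R := by
    have : (2 : ℝ) ≤ R := by linarith
    exact_mod_cast this
  have hRM : R ≤ M := by
    have h9 : (R : ℝ) ≤ M := by
      refine hR1.trans ?_
      rw [← hb4]
      calc b = b ^ 1 := (pow_one b).symm
        _ ≤ b ^ 4 := pow_le_pow_right₀ (by linarith) (by norm_num)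
    exact_mod_cast h9
  have hlR : L / 8 ≤ Real.log R := by
    have h9 : Real.log (b / 2) ≤ Real.log R := Real.log_le_log (by positivity) hR2
    rw [Real.log_div hb0.ne' two_ne_zero, hbd, Real.log_rpow hM0] at h9
    have h10 : Real.log 2 ≤ 1 := by
      have := Real.log_two_lt_d9
      linarith
    have h11 : 1 / 4 * Real.log M = 1 / 4 * L := rfl
    rw [h11] at h9
    linarith
  obtain ⟨H, rfl⟩ := Nat.exists_eq_add_of_le hMM'
  have hHle : (H : ℝ) ≤ ε / (256 * n) * M := by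
    push_cast at hM'
    linarith
  have hs := short_ideals (K := K) M H hR3 hRM ht ht'
  rw [← hn] at hs
  have hH1 : (H : ℝ) / Real.log R ≤ ε / (32 * n) * (M / L) := by
    calc (H : ℝ) / Real.log R ≤ H / (L / 8) :=
          div_le_div_of_nonneg_left (Nat.cast_nonneg _) (by linarith) hlR
      _ ≤ (ε / (256 * n) * M) / (L / 8) := div_le_div_of_nonneg_right hHle (by linarith)
      _ = ε / (32 * n) * (M / L) := by
          field_simp
          norm_num
  have hsq : √((M + H : ℕ) : ℝ) ≤ 2 * b ^ 2 := by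
    rw [Real.sqrt_le_left (by positivity)]
    have h9 : ε / (256 * n) ≤ 1 := by
      rw [div_le_one (by positivity)]
      linarith
    have h10 : (H : ℝ) ≤ M := hHle.trans (by nlinarith)
    push_cast
    calc (M : ℝ) + H ≤ 4 * M := by linarith
      _ = (2 * b ^ 2) ^ 2 := by rw [← hb4]; ring
  have hR4 : (R : ℝ) ^ 2 ≤ b ^ 2 := pow_le_pow_left₀ (Nat.cast_nonneg _) hR1 2
  have hdiff : (t'.card : ℝ) - t.card ≤ n * (ε / (32 * n) * (M / L) + 4 * b ^ 2) := by
    refine hs.trans (mul_le_mul_of_nonneg_left ?_ hn0.le)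
    have : 1 ≤ b ^ 2 := one_le_pow₀ (by linarith)
    linarith
  have hfin : 2 * ((t'.card : ℝ) - t.card) ≤ ε * t.card := by
    have h9 : 2 * (n * (ε / (32 * n) * (M / L) + 4 * b ^ 2)) ≤ ε * (M / (8 * L)) := by
      have h10 : 2 * (n * (ε / (32 * n) * (M / L) + 4 * b ^ 2)) =
          ε / 2 * (M / (8 * L)) + 8 * n * b ^ 2 := by
        field_simp
        ring
      rw [h10]
      have h11 : 8 * n * b ^ 2 ≤ ε / 2 * (M / (8 * L)) := by
        rw [mul_div_assoc', le_div_iff₀ (by linarith)]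
        rw [div_le_iff₀ hε] at h7
        have h12 : 8 * n * b ^ 2 * (8 * L) = 128 * n * (L * b ^ 2) / 2 := by ring
        have h13 : 128 * n * (L * b ^ 2) ≤ b * ε * (b * b ^ 2) :=
          mul_le_mul h7 (mul_le_mul_of_nonneg_right h6.le (by positivity))
            (by positivity) (by positivity)
        have h14 : b * ε * (b * b ^ 2) = ε * M := by rw [← hb4]; ring
        rw [h12]
        linarith
      linarith
    calc 2 * ((t'.card : ℝ) - t.card) ≤ 2 * (n * (ε / (32 * n) * (M / L) + 4 * b ^ 2)) := by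
          linarith
      _ ≤ ε * (M / (8 * L)) := h9
      _ ≤ ε * t.card := mul_le_mul_of_nonneg_left htp hε.le
  -- the means
  have hsub : t ⊆ t' := fun v hv => (ht' v).2 (((ht v).1 hv).trans (Nat.le_add_right _ _))
  have hcc : (t.card : ℝ) ≤ t'.card := by exact_mod_cast Finset.card_le_card hsub
  have htp' : (0 : ℝ) < t'.card := by linarith
  rw [hmean, hmean']
  set S : ℝ := ∑ v ∈ t, φ v with hS
  set S' : ℝ := ∑ v ∈ t', φ v with hS'
  have hS1 : |S| ≤ t.card := by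
    refine (Finset.abs_sum_le_sum_abs _ _).trans ((Finset.sum_le_sum fun v _ => hφ v).trans ?_)
    simp
  have hS2 : |S' - S| ≤ t'.card - t.card := by
    have h9 : S' - S = ∑ v ∈ t' \ t, φ v := by
      rw [hS', hS, ← Finset.sum_sdiff hsub]
      ring
    rw [h9]
    refine (Finset.abs_sum_le_sum_abs _ _).trans ((Finset.sum_le_sum fun v _ => hφ v).trans ?_)
    rw [Finset.sum_const, nsmul_eq_mul, mul_one, Finset.card_sdiff_of_subset hsub,
      Nat.cast_sub (Finset.card_le_card hsub)]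
  have h9 : S' / t'.card - S / t.card = (S' - S) / t'.card -
      S / t.card * ((t'.card - t.card) / t'.card) := by
    field_simp
    ring
  have h10 : |S / t.card| ≤ 1 := by
    rw [abs_div, abs_of_pos htp0]
    exact div_le_one_of_le₀ hS1 htp0.le
  have h11 : |S' / t'.card - S / t.card| ≤ 2 * ((t'.card : ℝ) - t.card) / t'.card := by
    rw [h9]
    refine (abs_sub _ _).trans ?_
    rw [abs_mul, abs_div (S' - S), abs_of_pos htp', abs_of_nonneg (div_nonneg
      (by linarith : (0 : ℝ) ≤ (t'.card : ℝ) - t.card) htp'.le)]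
    have h12 : |S' - S| / t'.card ≤ (t'.card - t.card) / t'.card :=
      div_le_div_of_nonneg_right hS2 htp'.le
    have h13 : |S / t.card| * (((t'.card : ℝ) - t.card) / t'.card) ≤
        1 * (((t'.card : ℝ) - t.card) / t'.card) :=
      mul_le_mul_of_nonneg_right h10 (div_nonneg (by linarith) htp'.le)
    have h14 : 2 * ((t'.card : ℝ) - t.card) / t'.card = (t'.card - t.card) / t'.card +
        1 * (((t'.card : ℝ) - t.card) / t'.card) := by ring
    linarith
  refine h11.trans ?_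
  rw [div_le_iff₀ htp']
  calc 2 * ((t'.card : ℝ) - t.card) ≤ ε * t.card := hfin
    _ ≤ ε * t'.card := mul_le_mul_of_nonneg_left hcc hε.le

end

end Pool.Agent.U681.UT
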