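import Pool.Agent.U681.UT.Mn
import Pool.Agent.U681.UT.Bt

/-! The law of the quadratic twists at all scales. -/

set_option autoImplicit false

namespace Pool.Agent.U681.UT

open NumberField IsDedekindDomain Filter Topology MeasureTheory
open Pool.Agent.K4H40.ST Pool.Agent.U681.STw

/-- geometric scales -/
theorem scales {η : ℝ} (hη : 0 < η) (hη1 : η ≤ 1) {N M : ℕ} (hN : 1 / η ≤ N) (hNM : N ≤ M) :
    N ≤ ⌊(N : ℝ) * (1 + η) ^ ⌊Real.log (M / N) / Real.log (1 + η)⌋₊⌋₊ ∧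
    ⌊(N : ℝ) * (1 + η) ^ ⌊Real.log (M / N) / Real.log (1 + η)⌋₊⌋₊ ≤ M ∧
    (M : ℝ) ≤ (1 + 3 * η) * ⌊(N : ℝ) * (1 + η) ^ ⌊Real.log (M / N) / Real.log (1 + η)⌋₊⌋₊ := by
  have hN0 : (0 : ℝ) < N := lt_of_lt_of_le (by positivity) hN
  have hNM' : (N : ℝ) ≤ M := by exact_mod_cast hNM
  have hM0 : (0 : ℝ) < M := by linarith
  have hl : 0 < Real.log (1 + η) := Real.log_pos (by linarith)
  have hr : 0 ≤ Real.log (M / N) := Real.log_nonneg (by rw [le_div_iff₀ hN0]; linarith)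
  set q : ℝ := Real.log (M / N) / Real.log (1 + η) with hq
  have hq0 : 0 ≤ q := by positivity
  set j : ℕ := ⌊q⌋₊ with hj
  have hj1 : (j : ℝ) ≤ q := Nat.floor_le hq0
  have hj2 : q < j + 1 := Nat.lt_floor_add_one q
  set X : ℝ := (N : ℝ) * (1 + η) ^ j with hX
  have h1 : (1 : ℝ) ≤ (1 + η) ^ j := one_le_pow₀ (by linarith)
  have hXN : (N : ℝ) ≤ X := by rw [hX]; nlinarith
  have hXM : X ≤ M := by
    have h2 : j * Real.log (1 + η) ≤ Real.log (M / N) := by
      rw [hq, le_div_iff₀ hl] at hj1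
      exact hj1
    have h3 : (1 + η) ^ j ≤ M / N := by
      rw [← Real.log_le_log_iff (by positivity) (by positivity), Real.log_pow]
      exact h2
    rw [le_div_iff₀ hN0] at h3
    rw [hX]
    linarith
  have hMX : (M : ℝ) < X * (1 + η) := by
    have h2 : Real.log (M / N) < (j + 1 : ℕ) * Real.log (1 + η) := by
      rw [hq, div_lt_iff₀ hl] at hj2
      push_cast
      exact hj2
    have h3 : (M : ℝ) / N < (1 + η) ^ (j + 1) := by
      rw [← Real.log_lt_log_iff (by positivity) (by positivity), Real.log_pow]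
      exact h2
    rw [div_lt_iff₀ hN0] at h3
    rw [hX]
    calc (M : ℝ) < (1 + η) ^ (j + 1) * N := h3
      _ = _ := by ring
  have hX0 : 0 ≤ X := by linarith
  refine ⟨Nat.le_floor hXN, ?_, ?_⟩
  · have : ((⌊X⌋₊ : ℕ) : ℝ) ≤ M := (Nat.floor_le hX0).trans hXM
    exact_mod_cast this
  · have h2 := Nat.lt_floor_add_one X
    have h3 : (N : ℝ) ≤ (⌊X⌋₊ : ℕ) := by exact_mod_cast Nat.le_floor hXN
    have h4 : 1 ≤ η * (⌊X⌋₊ : ℕ) := by
      rw [div_le_iff₀ hη] at hN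
      nlinarith
    nlinarith

variable {K : Type} [Field K] [NumberField K] {g : ℕ} {R : Type} [CommRing R]
  {ρ : Gal(Kbar K/K) →* GL (Fin g ⊕ Fin g) R} {ι : R →+* ℂ}
  {C : Subgroup (GL (Fin g ⊕ Fin g) ℂ)} {x : HeightOneSpectrum (𝓞 K) → C}

/-- the step of the scales -/
noncomputable def stp (n k : ℕ) : ℝ := 1 / (16 * k) / (256 * n) / 3

/-- the constant -/
noncomputable def bnd' (g n k : ℕ) (c : ℝ) : ℝ :=
  bnd g n k c * (1 + 1 / Real.log (1 + stp n k))

theorem all_scales (hsymp : IsSymplectic ρ) (hunr : IsUnramified K (Kbar K) ρ)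
    (hC : IsSatoTateGroup (extend ρ ι) C)
    (hx : IsClassSystem K (Kbar K) (extend ρ ι) C x) {Z : Set (HeightOneSpectrum (𝓞 K))}
    (hZ : Z.Finite) {c : ℝ} (hc0 : 0 < c) {k : ℕ} (hk : 1 ≤ k) :
    ∀ᶠ N : ℕ in atTop, ∀ N' : ℕ, N ≤ N' → ∀ E : Set ℤ,
      (∀ d ∈ E, Squarefree d ∧ |(d : ℝ)| ≤ (N : ℝ) ^ c ∧
      ∃ y : HeightOneSpectrum (𝓞 K) → C, IsTwistSystem (extend ρ ι) C Z (d : 𝓞 K) y ∧
      ∃ M : ℕ, N ≤ M ∧ M ≤ N' ∧
      ∃ f : (Fin g → ℝ) → ℝ, IsTest f ∧ 7 / (8 * (k : ℝ)) ≤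
        |mean K (fun v => f (lp (y v : GL (Fin g ⊕ Fin g) ℂ))) M -
          mean K (fun v => (f (lp (x v : GL (Fin g ⊕ Fin g) ℂ)) +
            f (lp (-(x v : GL (Fin g ⊕ Fin g) ℂ)))) / 2) M|) →
      (E.ncard : ℝ) ≤ bnd' g (Module.finrank ℚ K) k c *
        (1 + Real.log (N' / N)) * Real.log N' ^ ⌊c⌋₊ := by
  classical
  have hkR : (0 : ℝ) < k := by exact_mod_cast hk
  have hk1 : (1 : ℝ) ≤ k := by exact_mod_cast hk
  set n : ℝ := (Module.finrank ℚ K : ℝ) with hn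
  have hn0 : 0 < n := fr_pos (K := K)
  have hn1 : 1 ≤ n := by
    have h0 : 1 ≤ Module.finrank ℚ K := Module.finrank_pos
    rw [hn]
    exact_mod_cast h0
  have hε0 : (0 : ℝ) < 1 / (16 * k) := by positivity
  have hε1 : (1 : ℝ) / (16 * k) ≤ 1 := by
    rw [div_le_one (by positivity)]
    linarith
  set η : ℝ := stp (Module.finrank ℚ K) k with hη
  have hη' : 3 * η = 1 / (16 * k) / (256 * n) := by
    rw [hη]
    unfold stp
    ring
  have hη0 : 0 < η := by
    have : 0 < 3 * η := by rw [hη']; positivity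
    linarith
  have hη1 : η ≤ 1 := by
    have : 3 * η ≤ 1 := by
      rw [hη', div_le_one (by positivity)]
      linarith
    linarith
  have hl : 0 < Real.log (1 + η) := Real.log_pos (by linarith)
  obtain ⟨M₁, hM₁⟩ := eventually_atTop.1 (core hsymp hunr hC hx hZ hc0 hk)
  obtain ⟨M₂, hM₂⟩ := eventually_atTop.1 (mean_stable K hε0 hε1)
  filter_upwards [eventually_ge_atTop M₁, eventually_ge_atTop M₂, eventually_ge_atTop 1,
    (tendsto_natCast_atTop_atTop (R := ℝ)).eventually_ge_atTop (1 / η)]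
    with N hN1 hN2 hN3 hN4 N' hNN' E hE
  have hN0 : (1 : ℝ) ≤ N := by exact_mod_cast hN3
  have hNN'R : (N : ℝ) ≤ N' := by exact_mod_cast hNN'
  have hlN' : 0 ≤ Real.log (N' / N) := Real.log_nonneg (by
    rw [le_div_iff₀ (by linarith)]
    linarith)
  have hEf : E.Finite := by
    have h3 : E ⊆ Set.Icc (-⌈(N : ℝ) ^ c⌉) ⌈(N : ℝ) ^ c⌉ := by
      intro d hd
      have h4 := abs_le.1 (hE d hd).2.1
      have h5 := Int.le_ceil ((N : ℝ) ^ c)
      constructor
      · have : (-⌈(N : ℝ) ^ c⌉ : ℝ) ≤ d := by linarith [h4.1]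
        exact_mod_cast this
      · have : (d : ℝ) ≤ ⌈(N : ℝ) ^ c⌉ := by linarith [h4.2]
        exact_mod_cast this
    exact (Set.finite_Icc _ _).subset h3
  -- the scale of an exceptional twist
  have hsc : ∀ d : ℤ, ∃ M : ℕ, d ∈ E → Squarefree d ∧ |(d : ℝ)| ≤ (N : ℝ) ^ c ∧
      ∃ y : HeightOneSpectrum (𝓞 K) → C, IsTwistSystem (extend ρ ι) C Z (d : 𝓞 K) y ∧
      N ≤ M ∧ M ≤ N' ∧
      ∃ f : (Fin g → ℝ) → ℝ, IsTest f ∧ 7 / (8 * (k : ℝ)) ≤
        |mean K (fun v => f (lp (y v : GL (Fin g ⊕ Fin g) ℂ))) M -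
          mean K (fun v => (f (lp (x v : GL (Fin g ⊕ Fin g) ℂ)) +
            f (lp (-(x v : GL (Fin g ⊕ Fin g) ℂ)))) / 2) M| := by
    intro d
    by_cases hd : d ∈ E
    · obtain ⟨a1, a2, y, a3, M, a4, a5, a6⟩ := hE d hd
      exact ⟨M, fun _ => ⟨a1, a2, y, a3, a4, a5, a6⟩⟩
    · exact ⟨0, fun h => absurd h hd⟩
  choose sc hsc using hsc
  set jd : ℤ → ℕ := fun d => ⌊Real.log (sc d / N) / Real.log (1 + η)⌋₊ with hjd
  set J : ℕ := ⌊Real.log (N' / N) / Real.log (1 + η)⌋₊ with hJ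
  have hmem : ∀ d, d ∈ hEf.toFinset ↔ d ∈ E := fun d => hEf.mem_toFinset
  have hmaps : ∀ d ∈ hEf.toFinset, jd d ∈ Finset.range (J + 1) := by
    intro d hd
    obtain ⟨-, -, y, -, h1, h2, -⟩ := hsc d ((hmem d).1 hd)
    rw [Finset.mem_range]
    refine Nat.lt_succ_of_le (Nat.floor_le_floor ?_)
    refine div_le_div_of_nonneg_right ?_ hl.le
    have h3 : (N : ℝ) ≤ sc d := by exact_mod_cast h1
    have h4 : (sc d : ℝ) ≤ N' := by exact_mod_cast h2
    exact Real.log_le_log (div_pos (by linarith) (by linarith))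
      (div_le_div_of_nonneg_right h4 (by linarith))
  have hcard := Finset.card_eq_sum_card_fiberwise (s := hEf.toFinset) (t := Finset.range (J + 1))
    (f := jd) (fun d hd => Finset.mem_coe.2 (hmaps d (Finset.mem_coe.1 hd)))
  rw [Set.ncard_eq_toFinset_card E hEf, hcard]
  push_cast
  have hbnd0 : 0 ≤ bnd g (Module.finrank ℚ K) k c := by
    unfold bnd
    have : 0 < (⌊c⌋₊ : ℝ) + 1 - c := by
      have := Nat.lt_floor_add_one c
      linarith
    positivity
  -- one scale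
  have hone : ∀ j ∈ Finset.range (J + 1),
      ((hEf.toFinset.filter fun d => jd d = j).card : ℝ) ≤
        bnd g (Module.finrank ℚ K) k c * Real.log N' ^ ⌊c⌋₊ := by
    intro j _
    rcases Finset.eq_empty_or_nonempty (hEf.toFinset.filter fun d => jd d = j) with h0 | ⟨d₀, hd₀⟩
    · rw [h0, Finset.card_empty]
      have : 0 ≤ Real.log (N' : ℝ) := Real.log_natCast_nonneg N'
      push_cast
      positivity
    · set Mj : ℕ := ⌊(N : ℝ) * (1 + η) ^ j⌋₊ with hMj
      have hall : ∀ d ∈ hEf.toFinset.filter (fun d => jd d = j), N ≤ Mj ∧ Mj ≤ sc d ∧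
          (sc d : ℝ) ≤ (1 + 1 / (16 * k) / (256 * n)) * Mj := by
        intro d hd
        rw [Finset.mem_filter, hmem] at hd
        obtain ⟨hdE, hdj⟩ := hd
        obtain ⟨-, -, y, -, h1, h2, -⟩ := hsc d hdE
        have h3 := scales hη0 hη1 hN4 h1
        have h4 : ⌊Real.log (sc d / N) / Real.log (1 + η)⌋₊ = j := hdj
        rw [h4, ← hMj, hη'] at h3
        exact h3
      have hMj0 := hall d₀ hd₀
      have hMjN' : Mj ≤ N' := by
        rw [Finset.mem_filter, hmem] at hd₀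
        obtain ⟨-, -, y, -, h1, h2, -⟩ := hsc d₀ hd₀.1
        exact hMj0.2.1.trans h2
      have h5 := hM₁ Mj (hN1.trans hMj0.1)
        ((hEf.toFinset.filter fun d => jd d = j : Finset ℤ) : Set ℤ) ?_
      · rw [Set.ncard_coe_finset] at h5
        refine h5.trans (mul_le_mul_of_nonneg_left ?_ hbnd0)
        refine pow_le_pow_left₀ (Real.log_natCast_nonneg _) ?_ _
        have h6 : (1 : ℝ) ≤ Mj := by exact_mod_cast hN3.trans hMj0.1
        exact Real.log_le_log (by linarith) (by exact_mod_cast hMjN')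
      · intro d hd
        have hd' := Finset.mem_coe.1 hd
        obtain ⟨b1, b2, b3⟩ := hall d hd'
        rw [Finset.mem_filter, hmem] at hd'
        obtain ⟨a1, a2, y, a3, a4, a5, f, hf, hge⟩ := hsc d hd'.1
        have hMjR : (N : ℝ) ≤ Mj := by exact_mod_cast b1
        refine ⟨a1, a2.trans (Real.rpow_le_rpow (by linarith) hMjR hc0.le), y, a3, f, hf, ?_⟩
        have c1 := hM₂ Mj (hN2.trans b1) (sc d) b2 b3
          (fun v => f (lp (y v : GL (Fin g ⊕ Fin g) ℂ))) (fun v => hf.2 _)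
        have c2 := hM₂ Mj (hN2.trans b1) (sc d) b2 b3
          (fun v => (f (lp (x v : GL (Fin g ⊕ Fin g) ℂ)) +
            f (lp (-(x v : GL (Fin g ⊕ Fin g) ℂ)))) / 2) (fun v => by
              have e1 := abs_le.1 (hf.2 (lp (x v : GL (Fin g ⊕ Fin g) ℂ)))
              have e2 := abs_le.1 (hf.2 (lp (-(x v : GL (Fin g ⊕ Fin g) ℂ))))
              rw [abs_le]
              constructor <;> linarith [e1.1, e1.2, e2.1, e2.2])
        have c3 : |mean K (fun v => f (lp (y v : GL (Fin g ⊕ Fin g) ℂ))) (sc d) -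
            mean K (fun v => f (lp (y v : GL (Fin g ⊕ Fin g) ℂ))) Mj| ≤ 1 / (16 * k) := c1
        have c4 : |mean K (fun v => (f (lp (x v : GL (Fin g ⊕ Fin g) ℂ)) +
            f (lp (-(x v : GL (Fin g ⊕ Fin g) ℂ)))) / 2) (sc d) -
            mean K (fun v => (f (lp (x v : GL (Fin g ⊕ Fin g) ℂ)) +
            f (lp (-(x v : GL (Fin g ⊕ Fin g) ℂ)))) / 2) Mj| ≤ 1 / (16 * k) := c2
        set u1 := mean K (fun v => f (lp (y v : GL (Fin g ⊕ Fin g) ℂ))) (sc d)
        set u2 := mean K (fun v => f (lp (y v : GL (Fin g ⊕ Fin g) ℂ))) Mj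
        set u3 := mean K (fun v => (f (lp (x v : GL (Fin g ⊕ Fin g) ℂ)) +
            f (lp (-(x v : GL (Fin g ⊕ Fin g) ℂ)))) / 2) (sc d)
        set u4 := mean K (fun v => (f (lp (x v : GL (Fin g ⊕ Fin g) ℂ)) +
            f (lp (-(x v : GL (Fin g ⊕ Fin g) ℂ)))) / 2) Mj
        have c5 : |u1 - u3| ≤ |u2 - u4| + (1 / (16 * k) + 1 / (16 * k)) := by
          have e1 : u1 - u3 = (u2 - u4) + ((u1 - u2) - (u3 - u4)) := by ring
          rw [e1]
          refine (abs_add_le _ _).trans ?_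
          have e2 := abs_sub (u1 - u2) (u3 - u4)
          linarith
        have c6 : (7 : ℝ) / (8 * k) = 3 / (4 * k) + (1 / (16 * k) + 1 / (16 * k)) := by
          field_simp
          norm_num
        rw [c6] at hge
        linarith
  refine (Finset.sum_le_sum hone).trans ?_
  rw [Finset.sum_const, Finset.card_range, nsmul_eq_mul]
  unfold bnd'
  have hJ1 : (J : ℝ) ≤ Real.log (N' / N) / Real.log (1 + η) :=
    Nat.floor_le (div_nonneg hlN' hl.le)
  have hJ2 : ((J + 1 : ℕ) : ℝ) ≤ (1 + 1 / Real.log (1 + η)) * (1 + Real.log (N' / N)) := by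
    push_cast
    have h7 : (1 + 1 / Real.log (1 + η)) * (1 + Real.log (N' / N)) =
        1 + Real.log (N' / N) / Real.log (1 + η) + (1 / Real.log (1 + η) + Real.log (N' / N)) := by
      field_simp
      ring
    rw [h7]
    have : 0 ≤ 1 / Real.log (1 + η) + Real.log (N' / N) := by positivity
    linarith
  have hlp : 0 ≤ Real.log (N' : ℝ) ^ ⌊c⌋₊ := pow_nonneg (Real.log_natCast_nonneg N') _
  calc ((J + 1 : ℕ) : ℝ) * (bnd g (Module.finrank ℚ K) k c * Real.log N' ^ ⌊c⌋₊) ≤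
        ((1 + 1 / Real.log (1 + η)) * (1 + Real.log (N' / N))) *
          (bnd g (Module.finrank ℚ K) k c * Real.log N' ^ ⌊c⌋₊) :=
        mul_le_mul_of_nonneg_right hJ2 (mul_nonneg hbnd0 hlp)
    _ = _ := by ring

end Pool.Agent.U681.UT
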