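import Pool.Agent.U681.UT.Bq

/-! The primes dividing `2 d` do not matter, uniformly in `d`. -/

set_option autoImplicit false

namespace Pool.Agent.U681.UT

open Finset NumberField IsDedekindDomain Filter Topology Pool.Agent.H341R2
open Pool.Agent.W353.TP
open Pool.Agent.W529.ST
open Pool.Agent.H921R2.TatePole (nm_eq card_above below)

section
variable {K : Type} [Field K] [NumberField K]

theorem below_dvd {d : ℤ} {v : HeightOneSpectrum (𝓞 K)} (h : 2 * (d : 𝓞 K) ∈ v.asIdeal) :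
    (below v : ℕ) ∣ 2 * d.natAbs := by
  by_contra hcon
  have h1 : (below v : ℕ).Coprime (2 * d.natAbs) :=
    (Nat.Prime.coprime_iff_not_dvd (below v).2).2 hcon
  have h2 : IsCoprime ((below v : ℕ) : ℤ) (2 * d) := by
    rw [Int.isCoprime_iff_gcd_eq_one, Int.gcd_def, Int.natAbs_natCast, Int.natAbs_mul]
    exact h1
  obtain ⟨a, b, hab⟩ := h2
  have h3 : ((a * (below v : ℕ) + b * (2 * d) : ℤ) : 𝓞 K) = 1 := by rw [hab]; norm_num
  push_cast at h3
  apply v.isPrime.ne_top
  rw [Ideal.eq_top_iff_one, ← h3]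
  exact Ideal.add_mem _ (Ideal.mul_mem_left _ _ (nm_eq v).2.2) (Ideal.mul_mem_left _ _ h)

theorem two_pow_card {m : ℕ} (hm : m ≠ 0) : 2 ^ m.primeFactors.card ≤ m := by
  have h1 : 2 ^ m.primeFactors.card ≤ ∏ p ∈ m.primeFactors, p :=
    Finset.pow_card_le_prod _ _ _ (fun p hp => (Nat.prime_of_mem_primeFactors hp).two_le)
  exact h1.trans (Nat.le_of_dvd (Nat.pos_of_ne_zero hm) (Nat.prod_primeFactors_dvd m))

theorem card_bad {d : ℤ} (hd : d ≠ 0) (G : Finset (HeightOneSpectrum (𝓞 K)))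
    (hG : ∀ v ∈ G, 2 * (d : 𝓞 K) ∈ v.asIdeal) :
    G.card ≤ Module.finrank ℚ K * Nat.log 2 (2 * d.natAbs) := by
  classical
  have hd0 : 2 * d.natAbs ≠ 0 := by
    have := Int.natAbs_pos.2 hd
    omega
  have h1 := Finset.card_le_mul_card_image (f := fun v : HeightOneSpectrum (𝓞 K) => (below v : ℕ))
    G (Module.finrank ℚ K) (fun p hp => by
      obtain ⟨v, hv, rfl⟩ := Finset.mem_image.1 hp
      refine card_above (below v) _ fun w hw => ?_
      exact Subtype.ext (Finset.mem_filter.1 hw).2)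
  have h2 : G.image (fun v : HeightOneSpectrum (𝓞 K) => (below v : ℕ)) ⊆
      (2 * d.natAbs).primeFactors := by
    intro p hp
    obtain ⟨v, hv, rfl⟩ := Finset.mem_image.1 hp
    exact Nat.mem_primeFactors.2 ⟨(below v).2, below_dvd (hG v hv), hd0⟩
  refine h1.trans (Nat.mul_le_mul_left _ ((Finset.card_le_card h2).trans ?_))
  exact Nat.le_log_of_pow_le one_lt_two (two_pow_card hd0)

/-- functions that agree off a finite set and off the primes dividing `2 d` have close means,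
uniformly in `d` -/
theorem mean_bad {Z : Set (HeightOneSpectrum (𝓞 K))} (hZ : Z.Finite) {c : ℝ} (hc : 0 < c) {ε : ℝ}
    (hε : 0 < ε) :
    ∀ᶠ N : ℕ in atTop, ∀ d : ℤ, d ≠ 0 → |(d : ℝ)| ≤ (N : ℝ) ^ c →
      ∀ φ ψ : HeightOneSpectrum (𝓞 K) → ℝ, (∀ v, |φ v - ψ v| ≤ 2) →
      (∀ v, v ∉ Z → 2 * (d : 𝓞 K) ∉ v.asIdeal → φ v = ψ v) →
      |mean K φ N - mean K ψ N| ≤ ε := by
  classical
  have e1 : Tendsto (fun x : ℝ => Real.log x / x ^ (1 / 4 : ℝ)) atTop (𝓝 0) :=
    (isLittleO_log_rpow_atTop (by norm_num)).tendsto_div_nhds_zero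
  have e2 : Tendsto (fun x : ℝ => x ^ (1 / 4 : ℝ)) atTop atTop :=
    tendsto_rpow_atTop (by norm_num)
  set n := Module.finrank ℚ K with hn
  have e1' := (e1.comp (tendsto_natCast_atTop_atTop (R := ℝ))).eventually_lt_const zero_lt_one
  have e2' := (e2.comp (tendsto_natCast_atTop_atTop (R := ℝ))).eventually_ge_atTop
    (16 * (hZ.toFinset.card + (2 + 2 * c) * n) / ε)
  filter_upwards [pc_ge,
    (Pool.Agent.U681.GF.card_ratio (F := K)).eventually_const_lt (show (1 / 2 : ℝ) < 1 by norm_num),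
    (Pool.Agent.W529.ST.pc_atTop).eventually_gt_atTop 0, eventually_ge_atTop 3, e1', e2']
    with N h2 h3 h4 h5 h6 h7 d hd0 hdN φ ψ hb heq
  simp only [Function.comp_apply] at h6 h7
  obtain ⟨t, ht, htc, hmean⟩ := mean_def (F := K) (fun _ => 0) N
  have hN3 : (3 : ℝ) ≤ N := by exact_mod_cast h5
  have hN0 : (0 : ℝ) < N := by linarith
  have hlog1 : 1 ≤ Real.log N := by
    have h8 := Real.log_le_log (by norm_num) hN3
    have h9 : (1 : ℝ) ≤ Real.log 3 := by
      rw [Real.le_log_iff_exp_le (by norm_num)]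
      have := Real.exp_one_lt_d9
      linarith
    linarith
  rw [htc] at h3
  have htp : (N : ℝ) / (8 * Real.log N) ≤ t.card := by
    have h7 : 1 / 2 * (Nat.primeCounting N : ℝ) ≤ t.card := by
      rw [lt_div_iff₀ h4] at h3
      exact h3.le
    have h8 : (N : ℝ) / (8 * Real.log N) = 1 / 2 * (N / (4 * Real.log N)) := by
      field_simp
      norm_num
    rw [h8]
    linarith
  have htp0 : (0 : ℝ) < t.card := lt_of_lt_of_le (by positivity) htp
  set b : ℝ := (N : ℝ) ^ (1 / 4 : ℝ) with hbd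
  have hb0 : 0 < b := by positivity
  rw [div_lt_one hb0] at h6
  have hb4 : b ^ 4 = N := by
    rw [hbd, ← Real.rpow_natCast, ← Real.rpow_mul hN0.le]
    norm_num
  rw [hmean, hmean, ← sub_div, ← Finset.sum_sub_distrib, abs_div,
    abs_of_nonneg (Nat.cast_nonneg t.card : (0 : ℝ) ≤ _), div_le_iff₀ htp0]
  set X : Finset (HeightOneSpectrum (𝓞 K)) := t.filter fun v => 2 * (d : 𝓞 K) ∈ v.asIdeal with hX
  have hXc : (X.card : ℝ) ≤ n * ((2 + 2 * c) * Real.log N) := by
    have h8 := card_bad hd0 X fun v hv => (Finset.mem_filter.1 hv).2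
    have h9 : (Nat.log 2 (2 * d.natAbs) : ℝ) ≤ (2 + 2 * c) * Real.log N := by
      have hda : 0 < d.natAbs := Int.natAbs_pos.2 hd0
      have h10 : 2 ^ Nat.log 2 (2 * d.natAbs) ≤ 2 * d.natAbs := Nat.pow_log_le_self 2 (by omega)
      have h11 : (2 : ℝ) ^ Nat.log 2 (2 * d.natAbs) ≤ 2 * (N : ℝ) ^ c := by
        have h12 : (d.natAbs : ℝ) ≤ (N : ℝ) ^ c := by
          rw [Nat.cast_natAbs, Int.cast_abs]
          exact hdN
        calc (2 : ℝ) ^ Nat.log 2 (2 * d.natAbs) ≤ 2 * (d.natAbs : ℝ) := by exact_mod_cast h10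
          _ ≤ 2 * (N : ℝ) ^ c := by linarith
      have h13 := Real.log_le_log (by positivity) h11
      rw [Real.log_pow, Real.log_mul two_ne_zero (by positivity), Real.log_rpow hN0] at h13
      have h14 := Real.log_two_gt_d9
      have h15 := Real.log_two_lt_d9
      have h16 : (0 : ℝ) ≤ (Nat.log 2 (2 * d.natAbs) : ℝ) := Nat.cast_nonneg _
      have h17 : (Nat.log 2 (2 * d.natAbs) : ℝ) * (1 / 2) ≤
          (Nat.log 2 (2 * d.natAbs) : ℝ) * Real.log 2 :=
        mul_le_mul_of_nonneg_left (by linarith) h16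
      have h18 : 0 ≤ c * Real.log N := by positivity
      linarith
    calc (X.card : ℝ) ≤ ((n * Nat.log 2 (2 * d.natAbs) : ℕ) : ℝ) := by exact_mod_cast h8
      _ = n * (Nat.log 2 (2 * d.natAbs) : ℝ) := by push_cast; ring
      _ ≤ _ := mul_le_mul_of_nonneg_left h9 (Nat.cast_nonneg _)
  have h8 : |∑ v ∈ t, (φ v - ψ v)| ≤ 2 * (hZ.toFinset.card + X.card) := by
    refine (Finset.abs_sum_le_sum_abs _ _).trans ?_
    have h9 : ∀ v ∈ t, |φ v - ψ v| ≤ (if v ∈ hZ.toFinset then 2 else 0) +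
        (if 2 * (d : 𝓞 K) ∈ v.asIdeal then 2 else 0) := by
      intro v _
      by_cases h10 : v ∈ hZ.toFinset
      · rw [if_pos h10]
        refine (hb v).trans ?_
        split_ifs <;> norm_num
      · by_cases h11 : 2 * (d : 𝓞 K) ∈ v.asIdeal
        · rw [if_neg h10, if_pos h11, zero_add]
          exact hb v
        · rw [heq v (fun h => h10 (hZ.mem_toFinset.2 h)) h11, sub_self, abs_zero]
          split_ifs <;> norm_num
    refine (Finset.sum_le_sum h9).trans ?_
    rw [Finset.sum_add_distrib, ← Finset.sum_filter, ← Finset.sum_filter, Finset.sum_const,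
      Finset.sum_const, nsmul_eq_mul, nsmul_eq_mul, ← hX, mul_add, mul_comm _ (2 : ℝ),
      mul_comm _ (2 : ℝ)]
    have h10 : (t.filter fun v => v ∈ hZ.toFinset).card ≤ hZ.toFinset.card :=
      Finset.card_le_card fun v hv => (Finset.mem_filter.1 hv).2
    have h11 : ((t.filter fun v => v ∈ hZ.toFinset).card : ℝ) ≤ hZ.toFinset.card := by
      exact_mod_cast h10
    linarith
  refine h8.trans ?_
  have h9 : 2 * ((hZ.toFinset.card : ℝ) + X.card) ≤
      2 * (hZ.toFinset.card + (2 + 2 * c) * n) * Real.log N := by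
    have h10 : (0 : ℝ) ≤ hZ.toFinset.card := Nat.cast_nonneg _
    have h11 : (hZ.toFinset.card : ℝ) ≤ hZ.toFinset.card * Real.log N := by nlinarith
    have h12 : (n : ℝ) * ((2 + 2 * c) * Real.log N) = (2 + 2 * c) * n * Real.log N := by ring
    linarith
  refine h9.trans (le_trans ?_ (mul_le_mul_of_nonneg_left htp hε.le))
  rw [mul_div_assoc', le_div_iff₀ (by linarith)]
  have h10 : 2 * ((hZ.toFinset.card : ℝ) + (2 + 2 * c) * n) * Real.log N * (8 * Real.log N) =
      16 * (hZ.toFinset.card + (2 + 2 * c) * n) * (Real.log N * Real.log N) := by ring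
  rw [h10]
  rw [div_le_iff₀ hε] at h7
  have h11 : b ≤ b * b := by
    have : 1 ≤ b := by linarith
    nlinarith
  calc 16 * ((hZ.toFinset.card : ℝ) + (2 + 2 * c) * n) * (Real.log N * Real.log N) ≤
        (b * ε) * (b * b) := mul_le_mul h7 (mul_le_mul h6.le h6.le (by linarith) hb0.le)
          (by nlinarith) (by positivity)
    _ ≤ (b * ε) * (b * b * b) := by
        refine mul_le_mul_of_nonneg_left ?_ (by positivity)
        have : 1 ≤ b := by linarith
        nlinarith [mul_pos hb0 hb0]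
    _ = ε * b ^ 4 := by ring
    _ = ε * N := by rw [hb4]

end

end Pool.Agent.U681.UT
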