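import Pool.Agent.U681.UT.Ls

/-! Moments of sums over primes. -/

set_option autoImplicit false

namespace Pool.Agent.U681.UT

open Finset

/-- duality -/
theorem duality {ι κ : Type} (T : Finset ι) (G : Finset κ) (u : ι → κ → ℝ) {Λ : ℝ} (hΛ : 0 ≤ Λ)
    (h : ∀ c : ι → ℝ, ∑ n ∈ G, (∑ i ∈ T, c i * u i n) ^ 2 ≤ Λ * ∑ i ∈ T, c i ^ 2) (b : κ → ℝ) :
    ∑ i ∈ T, (∑ n ∈ G, b n * u i n) ^ 2 ≤ Λ * ∑ n ∈ G, b n ^ 2 := by
  set Z : ι → ℝ := fun i => ∑ n ∈ G, b n * u i n with hZ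
  set S : ℝ := ∑ i ∈ T, Z i ^ 2 with hS
  have hS0 : 0 ≤ S := Finset.sum_nonneg fun i _ => sq_nonneg _
  have hb0 : 0 ≤ ∑ n ∈ G, b n ^ 2 := Finset.sum_nonneg fun n _ => sq_nonneg _
  have h1 : S = ∑ n ∈ G, b n * ∑ i ∈ T, Z i * u i n := by
    have e1 : ∀ i ∈ T, Z i ^ 2 = ∑ n ∈ G, Z i * (b n * u i n) := by
      intro i _
      rw [sq]
      nth_rewrite 2 [hZ]
      rw [Finset.mul_sum]
    rw [hS, Finset.sum_congr rfl e1, Finset.sum_comm]
    refine Finset.sum_congr rfl fun n _ => ?_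
    rw [Finset.mul_sum]
    exact Finset.sum_congr rfl fun i _ => by ring
  have h2 : S ^ 2 ≤ (Λ * ∑ n ∈ G, b n ^ 2) * S := by
    calc S ^ 2 = (∑ n ∈ G, b n * ∑ i ∈ T, Z i * u i n) ^ 2 := by rw [← h1]
      _ ≤ (∑ n ∈ G, b n ^ 2) * ∑ n ∈ G, (∑ i ∈ T, Z i * u i n) ^ 2 :=
          Finset.sum_mul_sq_le_sq_mul_sq _ _ _
      _ ≤ (∑ n ∈ G, b n ^ 2) * (Λ * S) := mul_le_mul_of_nonneg_left (h Z) hb0
      _ = _ := by ring
  rcases hS0.eq_or_lt with h7 | h7
  · rw [← h7]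
    positivity
  · rw [sq] at h2
    exact le_of_mul_le_mul_right h2 h7

/-- products of `m` primes larger than `R` are rough -/
theorem rough_prod {m R : ℕ} {f : Fin m → ℕ} (hf : ∀ i, (f i).Prime ∧ R < f i) :
    Rough R (∏ i, f i) := by
  intro r h2 hrR hr
  obtain ⟨q, hq, hqr⟩ := Nat.exists_prime_and_dvd (show r ≠ 1 by omega)
  obtain ⟨i, -, hi⟩ := (Prime.dvd_finsetProd_iff hq.prime f).1 (hqr.trans hr)
  have h3 : q = f i := (Nat.prime_dvd_prime_iff_eq hq (hf i).1).1 hi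
  have h4 := Nat.le_of_dvd (by omega) hqr
  have := (hf i).2
  omega

open Classical in
/-- there are at most `m ^ m` products of `m` primes with a given value -/
theorem fiber_card {m : ℕ} {s : Finset ℕ} (hs : ∀ p ∈ s, p.Prime) (n : ℕ) :
    ((Fintype.piFinset fun _ : Fin m => s).filter fun f => ∏ i, f i = n).card ≤ m ^ m := by
  rcases Finset.eq_empty_or_nonempty
    ((Fintype.piFinset fun _ : Fin m => s).filter fun f => ∏ i, f i = n) with h0 | ⟨f₀, hf₀⟩
  · rw [h0]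
    simp
  · rw [mem_filter, Fintype.mem_piFinset] at hf₀
    have hn0 : n ≠ 0 := by
      rw [← hf₀.2]
      exact Finset.prod_ne_zero_iff.2 fun i _ => (hs _ (hf₀.1 i)).ne_zero
    have h1 : n.primeFactors ⊆ Finset.univ.image f₀ := by
      intro q hq
      have hq' := Nat.prime_of_mem_primeFactors hq
      have h2 : q ∣ ∏ i, f₀ i := by
        rw [hf₀.2]
        exact Nat.dvd_of_mem_primeFactors hq
      obtain ⟨i, -, hi⟩ := (Prime.dvd_finsetProd_iff hq'.prime f₀).1 h2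
      rw [mem_image]
      exact ⟨i, mem_univ _, ((Nat.prime_dvd_prime_iff_eq hq' (hs _ (hf₀.1 i))).1 hi).symm⟩
    have h2 : n.primeFactors.card ≤ m := by
      refine (Finset.card_le_card h1).trans (Finset.card_image_le.trans ?_)
      simp
    have h3 : ((Fintype.piFinset fun _ : Fin m => s).filter fun f => ∏ i, f i = n) ⊆
        Fintype.piFinset fun _ : Fin m => n.primeFactors := by
      intro f hf
      rw [mem_filter, Fintype.mem_piFinset] at hf
      rw [Fintype.mem_piFinset]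
      intro i
      rw [Nat.mem_primeFactors]
      refine ⟨hs _ (hf.1 i), ?_, hn0⟩
      rw [← hf.2]
      exact Finset.dvd_prod_of_mem f (mem_univ i)
    refine (Finset.card_le_card h3).trans ?_
    rw [Fintype.card_piFinset_const]
    exact Nat.pow_le_pow_left h2 m

open Classical in
/-- **The moments of sums over primes.** -/
theorem moment {ι : Type} (T : Finset ι) (u : ι → ℕ → ℝ) (hu : ∀ i ∈ T, ∀ n, |u i n| ≤ 1)
    (hmul : ∀ i ∈ T, ∀ a b, 1 ≤ a → 1 ≤ b → u i (a * b) = u i a * u i b)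
    (hone : ∀ i ∈ T, u i 1 = 1) {P : ℝ} (hP0 : 0 ≤ P)
    {N R m : ℕ} (hR : 2 ≤ R)
    (hP : ∀ i ∈ T, ∀ j ∈ T, i ≠ j → ∀ M : ℕ, M ≤ N ^ m → |∑ n ∈ Icc 1 M, u i n * u j n| ≤ P)
    {s : Finset ℕ} (hs : ∀ p ∈ s, p.Prime ∧ R < p ∧ p ≤ N) (a : ℕ → ℝ) (ha : ∀ p, |a p| ≤ 1) :
    ∑ i ∈ T, ((∑ p ∈ s, a p * u i p) ^ m) ^ 2 ≤
      ((N : ℝ) ^ m / Real.log R + R ^ 2 + R ^ 2 * P * T.card) * ((m : ℝ) ^ m * (s.card : ℝ) ^ m) := by
  set Φ : Finset (Fin m → ℕ) := Fintype.piFinset fun _ : Fin m => s with hΦ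
  set G : Finset ℕ := (Icc 1 (N ^ m)).filter (Rough R) with hG
  set b : ℕ → ℝ := fun n => ∑ f ∈ Φ.filter (fun f => ∏ i, f i = n), ∏ i, a (f i) with hb
  have hfs : ∀ f ∈ Φ, ∀ i, f i ∈ s := fun f hf i => Fintype.mem_piFinset.1 hf i
  have hmap : ∀ f ∈ Φ, ∏ i, f i ∈ G := by
    intro f hf
    rw [hG, mem_filter, mem_Icc]
    refine ⟨⟨Nat.one_le_iff_ne_zero.2 (Finset.prod_ne_zero_iff.2 fun i _ =>
      (hs _ (hfs f hf i)).1.ne_zero), ?_⟩, rough_prod fun i =>
        ⟨(hs _ (hfs f hf i)).1, (hs _ (hfs f hf i)).2.1⟩⟩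
    calc ∏ i, f i ≤ ∏ _i : Fin m, N := Finset.prod_le_prod' fun i _ => (hs _ (hfs f hf i)).2.2
      _ = N ^ m := by simp
  -- the power as a sum over the rough numbers
  have hpow : ∀ i ∈ T, (∑ p ∈ s, a p * u i p) ^ m = ∑ n ∈ G, b n * u i n := by
    intro i hi
    have huprod : ∀ (f : Fin m → ℕ), (∀ j, 1 ≤ f j) → u i (∏ j, f j) = ∏ j, u i (f j) := by
      intro f hf
      have key : ∀ t : Finset (Fin m), u i (∏ j ∈ t, f j) = ∏ j ∈ t, u i (f j) := by
        intro t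
        induction t using Finset.induction_on with
        | empty => simpa using hone i hi
        | insert j t hj ih =>
          rw [Finset.prod_insert hj, Finset.prod_insert hj, hmul i hi _ _ (hf j)
            (Nat.one_le_iff_ne_zero.2 (Finset.prod_ne_zero_iff.2 fun l _ => by
              have := hf l; omega)), ih]
      exact key _
    have e1 : (∑ p ∈ s, a p * u i p) ^ m = ∑ f ∈ Φ, ∏ j, (a (f j) * u i (f j)) := by
      have h1 := Finset.prod_univ_sum (fun _ : Fin m => s) (fun _ p => a p * u i p)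
      rw [← h1]
      simp
    rw [e1, ← Finset.sum_fiberwise_of_maps_to hmap]
    refine Finset.sum_congr rfl fun n _ => ?_
    rw [hb, Finset.sum_mul]
    refine Finset.sum_congr rfl fun f hf => ?_
    rw [mem_filter] at hf
    rw [Finset.prod_mul_distrib, ← huprod f fun j => (hs _ (hfs f hf.1 j)).1.one_lt.le, hf.2]
  rw [Finset.sum_congr rfl fun i hi => by rw [hpow i hi]]
  have hlog : 0 ≤ Real.log R := Real.log_natCast_nonneg R
  have hΛ : 0 ≤ (N : ℝ) ^ m / Real.log R + R ^ 2 + R ^ 2 * P * T.card := by positivity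
  have h1 : ∀ c : ι → ℝ, ∑ n ∈ G, (∑ i ∈ T, c i * u i n) ^ 2 ≤
      ((N : ℝ) ^ m / Real.log R + R ^ 2 + R ^ 2 * P * T.card) * ∑ i ∈ T, c i ^ 2 := by
    intro c
    have := large_sieve T u hu hmul hP0 (N := N ^ m) hR hP c
    push_cast at this
    exact this
  refine (duality T G u hΛ h1 b).trans (mul_le_mul_of_nonneg_left ?_ hΛ)
  -- the coefficients
  have hbn : ∀ n, |b n| ≤ ((Φ.filter fun f => ∏ i, f i = n).card : ℝ) := by
    intro n
    rw [hb]
    refine (Finset.abs_sum_le_sum_abs _ _).trans ?_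
    calc ∑ f ∈ Φ.filter (fun f => ∏ i, f i = n), |∏ i, a (f i)| ≤
          ∑ f ∈ Φ.filter (fun f => ∏ i, f i = n), (1 : ℝ) := by
          refine Finset.sum_le_sum fun f _ => ?_
          rw [Finset.abs_prod]
          exact Finset.prod_le_one (fun i _ => abs_nonneg _) fun i _ => ha _
      _ = _ := by simp
  have h2 : ∀ n ∈ G, b n ^ 2 ≤ (m : ℝ) ^ m * ((Φ.filter fun f => ∏ i, f i = n).card : ℝ) := by
    intro n _
    have h3 : ((Φ.filter fun f => ∏ i, f i = n).card : ℝ) ≤ (m : ℝ) ^ m := by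
      exact_mod_cast fiber_card (fun p hp => (hs p hp).1) n
    calc b n ^ 2 = |b n| ^ 2 := (sq_abs _).symm
      _ ≤ ((Φ.filter fun f => ∏ i, f i = n).card : ℝ) ^ 2 :=
          pow_le_pow_left₀ (abs_nonneg _) (hbn n) 2
      _ = ((Φ.filter fun f => ∏ i, f i = n).card : ℝ) *
          ((Φ.filter fun f => ∏ i, f i = n).card : ℝ) := sq _
      _ ≤ _ := mul_le_mul_of_nonneg_right h3 (Nat.cast_nonneg _)
  refine (Finset.sum_le_sum h2).trans ?_
  rw [← Finset.mul_sum]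
  refine mul_le_mul_of_nonneg_left (le_of_eq ?_) (by positivity)
  have h3 := Finset.card_eq_sum_card_fiberwise (s := Φ) (t := G)
    (f := fun f : Fin m → ℕ => ∏ i, f i) (fun f hf => Finset.mem_coe.2 (hmap f (Finset.mem_coe.1 hf)))
  have h4 : Φ.card = s.card ^ m := Fintype.card_piFinset_const _ _
  rw [h4] at h3
  have h5 : ((s.card ^ m : ℕ) : ℝ) = ((∑ n ∈ G, (Φ.filter fun f => ∏ i, f i = n).card : ℕ) : ℝ) := by
    exact_mod_cast h3
  push_cast at h5
  exact h5.symm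

end Pool.Agent.U681.UT
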