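import Pool.Agent.U681.UT.Ch
import Pool.Agent.U681.UT.Mo
import Pool.Agent.W529.ST.Uni
import Pool.Agent.U681.GF.Dn

/-! Sums over prime ideals and sums over prime numbers. -/

set_option autoImplicit false

namespace Pool.Agent.U681.UT

open Finset NumberField IsDedekindDomain Filter Topology Pool.Agent.H341R2
open Pool.Agent.W353.TP
open Pool.Agent.W529.ST
open Pool.Agent.H921R2.TatePole (nm R_eq_hc R_le kerPrime)

theorem cop_iff {p : ℕ} (hp : p.Prime) (d : ℤ) :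
    p.Coprime (4 * d.natAbs) ↔ ¬ (p : ℤ) ∣ 2 * d := by
  rw [Nat.Prime.coprime_iff_not_dvd hp, not_iff_not, Int.natCast_dvd, Int.natAbs_mul]
  have e1 : (2 : ℤ).natAbs = 2 := rfl
  rw [e1]
  constructor
  · intro h
    have h2 : p ∣ 2 * (2 * d.natAbs) := by
      rw [← mul_assoc]
      exact h
    rcases (Nat.Prime.dvd_mul hp).1 h2 with h3 | h3
    · exact Dvd.dvd.mul_right h3 _
    · exact h3
  · intro h
    have e2 : 4 * d.natAbs = 2 * (2 * d.natAbs) := by ring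
    rw [e2]
    exact Dvd.dvd.mul_left h _

section
variable {K : Type} [Field K] [NumberField K]

theorem ch_ker (d : ℤ) (p : Nat.Primes) (ψ : 𝓞 K →+* ZMod (p : ℕ)) :
    ch (d : 𝓞 K) (kerPrime p ψ).1.1 = ku d p := by
  have hF : Fact (p : ℕ).Prime := ⟨p.2⟩
  have h1 : 2 * (d : 𝓞 K) ∈ (kerPrime p ψ).1.1.asIdeal ↔ ((p : ℕ) : ℤ) ∣ 2 * d := by
    have h2 : 2 * (d : 𝓞 K) ∈ (kerPrime p ψ).1.1.asIdeal ↔ ψ (2 * (d : 𝓞 K)) = 0 := Iff.rfl
    have h3 : ψ (2 * (d : 𝓞 K)) = ((2 * d : ℤ) : ZMod (p : ℕ)) := by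
      rw [map_mul, map_ofNat, map_intCast]
      push_cast
      rfl
    rw [h2, h3, ZMod.intCast_zmod_eq_zero_iff_dvd]
  unfold ch ku Pool.Agent.N429.QFChar.ker
  by_cases h : ((p : ℕ) : ℤ) ∣ 2 * d
  · rw [if_pos (h1.2 h), if_neg (fun h2 => (cop_iff p.2 d).1 h2 h)]
    norm_num
  · rw [if_neg (fun h2 => h (h1.1 h2)), if_pos ((cop_iff p.2 d).2 h), chi_kerPrime, map_intCast,
      ← jacobiSym.legendreSym.to_jacobiSym]
    rfl

theorem fs_eq (φ : HeightOneSpectrum (𝓞 K) → ℝ) (N : ℕ) {t : Finset (HeightOneSpectrum (𝓞 K))}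
    (ht : ∀ v, v ∈ t ↔ Ideal.absNorm v.asIdeal ≤ N) :
    ∑ᶠ v : {v : HeightOneSpectrum (𝓞 K) // Ideal.absNorm v.asIdeal ≤ N}, φ v.1 =
      ∑ v ∈ t, φ v := by
  have hfin := (finsum_eq (F := K) φ N).1
  let _ := Fintype.ofFinite {v : HeightOneSpectrum (𝓞 K) // Ideal.absNorm v.asIdeal ≤ N}
  rw [finsum_eq_sum_of_fintype]
  exact (Finset.sum_subtype t ht φ).symm

/-- the weight of the rational prime `p` -/
noncomputable def bb (h : HeightOneSpectrum (𝓞 K) → ℝ) (p : Nat.Primes) : ℝ :=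
  (∑ ψ : 𝓞 K →+* ZMod (p : ℕ), h (kerPrime p ψ).1.1) / Module.finrank ℚ K

/-- the weight of the rational prime `p`, as a function on the natural numbers -/
noncomputable def aa (h : HeightOneSpectrum (𝓞 K) → ℝ) (p : ℕ) : ℝ :=
  open Classical in
  if hp : p.Prime then bb h ⟨p, hp⟩ else 0

theorem fr_pos : (0 : ℝ) < Module.finrank ℚ K := by exact_mod_cast Module.finrank_pos

theorem bb_abs {h : HeightOneSpectrum (𝓞 K) → ℝ} (hh : ∀ v, |h v| ≤ 1) (p : Nat.Primes) :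
    |bb h p| ≤ 1 := by
  unfold bb
  rw [abs_div, abs_of_pos (fr_pos (K := K)), div_le_one (fr_pos (K := K))]
  refine (Finset.abs_sum_le_sum_abs _ _).trans ((Finset.sum_le_sum fun ψ _ => hh _).trans ?_)
  rw [Finset.sum_const, Finset.card_univ, nsmul_eq_mul, mul_one]
  exact_mod_cast card_hom_le p

theorem aa_abs {h : HeightOneSpectrum (𝓞 K) → ℝ} (hh : ∀ v, |h v| ≤ 1) (p : ℕ) : |aa h p| ≤ 1 := by
  unfold aa
  split_ifs with hp
  · exact bb_abs hh _
  · simp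

theorem to_rational {h : HeightOneSpectrum (𝓞 K) → ℝ} (hh : ∀ v, |h v| ≤ 1) (d : ℤ) (N R : ℕ)
    {t : Finset (HeightOneSpectrum (𝓞 K))} (ht : ∀ v, v ∈ t ↔ Ideal.absNorm v.asIdeal ≤ N) :
    |∑ v ∈ t, h v * ch (d : 𝓞 K) v - Module.finrank ℚ K *
      ∑ p ∈ (Icc 1 N).filter (fun p => p.Prime ∧ R < p), aa h p * ku d p| ≤
      Module.finrank ℚ K * (√N + 1 + R) := by
  classical
  set n : ℝ := (Module.finrank ℚ K : ℝ) with hn
  have hn0 : 0 < n := fr_pos (K := K)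
  have hb : ∀ v : HeightOneSpectrum (𝓞 K), |h v * ch (d : 𝓞 K) v| ≤ 1 := fun v => by
    rw [abs_mul]
    exact mul_le_one₀ (hh v) (abs_nonneg _) (ch_abs _ v)
  have h1 := sum_low (F := K) _ hb N
  rw [fs_eq (fun v => h v * ch (d : 𝓞 K) v) N ht] at h1
  have h2 : ∑ p ∈ PR N, ∑ ψ : 𝓞 K →+* ZMod (p : ℕ),
      h (kerPrime p ψ).1.1 * ch (d : 𝓞 K) (kerPrime p ψ).1.1 =
      n * ∑ p ∈ (range (N + 1)).filter Nat.Prime, aa h p * ku d p := by
    have e1 : ∀ p ∈ PR N, ∑ ψ : 𝓞 K →+* ZMod (p : ℕ),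
        h (kerPrime p ψ).1.1 * ch (d : 𝓞 K) (kerPrime p ψ).1.1 = n * (aa h p * ku d p) := by
      intro p _
      have e2 : aa h (p : ℕ) = (∑ ψ : 𝓞 K →+* ZMod (p : ℕ), h (kerPrime p ψ).1.1) / n := by
        unfold aa
        rw [dif_pos p.2]
        rfl
      rw [e2, Finset.sum_congr rfl fun ψ _ => by rw [ch_ker], ← Finset.sum_mul]
      field_simp
    rw [Finset.sum_congr rfl e1, ← Finset.mul_sum]
    congr 1
    unfold PR
    exact Finset.sum_subtype_eq_sum_filter (fun p => aa h p * ku d p)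
  rw [h2, ← Finset.sum_filter_add_sum_filter_not _ (fun p => R < p)] at h1
  have h4 : ((range (N + 1)).filter Nat.Prime).filter (fun n => R < n) =
      (Icc 1 N).filter (fun p => p.Prime ∧ R < p) := by
    ext n
    simp only [mem_filter, mem_range, mem_Icc]
    constructor
    · rintro ⟨⟨h1, h2⟩, h3⟩
      exact ⟨⟨h2.one_lt.le, by omega⟩, h2, h3⟩
    · rintro ⟨⟨h1, h2⟩, h3, h4⟩
      exact ⟨⟨by omega, h3⟩, h4⟩
  rw [h4] at h1
  have h5 : |∑ p ∈ ((range (N + 1)).filter Nat.Prime).filter (fun p => ¬ R < p),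
      aa h p * ku d p| ≤ R := by
    have h6 : ((range (N + 1)).filter Nat.Prime).filter (fun n => ¬ R < n) ⊆ Icc 1 R := by
      intro n hn
      simp only [mem_filter, mem_range] at hn
      rw [mem_Icc]
      exact ⟨hn.1.2.one_lt.le, by omega⟩
    refine (Finset.abs_sum_le_sum_abs _ _).trans ?_
    calc ∑ p ∈ ((range (N + 1)).filter Nat.Prime).filter (fun p => ¬ R < p), |aa h p * ku d p| ≤
          ∑ p ∈ ((range (N + 1)).filter Nat.Prime).filter (fun p => ¬ R < p), (1 : ℝ) := by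
          refine Finset.sum_le_sum fun p _ => ?_
          rw [abs_mul]
          exact mul_le_one₀ (aa_abs hh p) (abs_nonneg _) (ku_abs d p)
      _ = ((((range (N + 1)).filter Nat.Prime).filter (fun p => ¬ R < p)).card : ℝ) := by simp
      _ ≤ ((Icc 1 R).card : ℝ) := by exact_mod_cast Finset.card_le_card h6
      _ = R := by simp
  set A : ℝ := ∑ v ∈ t, h v * ch (d : 𝓞 K) v with hA
  set B : ℝ := ∑ p ∈ (Icc 1 N).filter (fun p => p.Prime ∧ R < p), aa h p * ku d p with hB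
  set C : ℝ := ∑ p ∈ ((range (N + 1)).filter Nat.Prime).filter (fun p => ¬ R < p),
    aa h p * ku d p with hC
  have h6 : |A - n * B| ≤ |A - n * (B + C)| + |n * C| := by
    refine le_trans (le_of_eq ?_) (abs_add_le _ _)
    congr 1
    ring
  have h7 : |n * C| ≤ n * R := by
    rw [abs_mul, abs_of_pos hn0]
    exact mul_le_mul_of_nonneg_left h5 hn0.le
  have h8 : |A - n * (B + C)| ≤ n * 1 * (√N + 1) := h1
  linarith

end

end Pool.Agent.U681.UT
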