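import Pool.Agent.U681.UT.Bp

/-! Few quadratic characters correlate with a given function. -/

set_option autoImplicit false

namespace Pool.Agent.U681.UT

open Finset NumberField IsDedekindDomain Filter Topology Pool.Agent.H341R2
open Pool.Agent.W353.TP
open Pool.Agent.W529.ST

theorem pc_ge : ∀ᶠ N : ℕ in atTop, (N : ℝ) / (4 * Real.log N) ≤ (Nat.primeCounting N : ℝ) := by
  have h2 : ∀ᶠ N : ℕ in atTop, Real.log ((N : ℝ) + 1) ≤ N / 4 := by
    have e1 : Tendsto (fun x : ℝ => Real.log x / x ^ (1 : ℝ)) atTop (𝓝 0) :=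
      (isLittleO_log_rpow_atTop (by norm_num)).tendsto_div_nhds_zero
    have e2 := e1.comp ((tendsto_natCast_atTop_atTop (R := ℝ)).atTop_add
      (tendsto_const_nhds (x := (1 : ℝ))))
    filter_upwards [e2.eventually (gt_mem_nhds (show (0 : ℝ) < 1 / 8 by norm_num)),
      eventually_ge_atTop 1] with N hN hN1
    simp only [Function.comp_apply, Real.rpow_one] at hN
    have hp : (0 : ℝ) < (N : ℝ) + 1 := by positivity
    rw [div_lt_iff₀ hp] at hN
    have : (1 : ℝ) ≤ N := by exact_mod_cast hN1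
    linarith
  filter_upwards [h2, eventually_ge_atTop 2] with N h3 h4
  have h5 := Chebyshev.pi_ge N
  have hN : (2 : ℝ) ≤ N := by exact_mod_cast h4
  have hlog : 0 < Real.log N := Real.log_pos (by linarith)
  have hl2 : (1 / 2 : ℝ) < Real.log 2 := by
    have := Real.log_two_gt_d9
    linarith
  have h6 : (N : ℝ) / 4 ≤ N * Real.log 2 - Real.log (N + 1) := by nlinarith
  refine le_trans ?_ h5
  rw [div_le_div_iff₀ (by positivity) hlog]
  nlinarith

theorem asym_real {c : ℝ} {m : ℕ} (hc0 : 0 < c) (hc1 : (m : ℝ) ≤ c) (hc2 : c < m + 1) {B₀ : ℝ}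
    (hB₀ : 0 ≤ B₀) {n δ : ℝ} (hn : 0 < n) (hδ : 0 < δ) :
    ∀ᶠ x : ℝ in atTop, ∀ R : ℝ, x ^ ((m + 1 - c) / 4) / 2 ≤ R → R ≤ x ^ ((m + 1 - c) / 4) →
      (x ^ (m + 1) / Real.log R + R ^ 2 +
        R ^ 2 * (8 * x ^ c * (1 + Real.log (4 * (x ^ c) ^ 2))) * (2 * (B₀ * Real.log x ^ m)) ≤
      9 / (m + 1 - c) * (x ^ (m + 1) / Real.log x)) ∧
      n * (√x + 1 + R) ≤ δ / 2 * (x / (8 * Real.log x)) := by
  set κ : ℝ := m + 1 - c with hκ
  have hκ0 : 0 < κ := by linarith
  have hκ1 : κ ≤ 1 := by linarith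
  have hm3 : (0 : ℝ) < 2 * (m + 3) := by positivity
  have hb : 0 < κ / (2 * (m + 3)) := by positivity
  have e1 : Tendsto (fun x : ℝ => Real.log x / x ^ (κ / (2 * (m + 3)))) atTop (𝓝 0) :=
    (isLittleO_log_rpow_atTop hb).tendsto_div_nhds_zero
  have e2 : Tendsto (fun x : ℝ => x ^ (κ / (2 * (m + 3)))) atTop atTop := tendsto_rpow_atTop hb
  have e3 : Tendsto (fun x : ℝ => Real.log x / x ^ (1 / 4 : ℝ)) atTop (𝓝 0) :=
    (isLittleO_log_rpow_atTop (by norm_num)).tendsto_div_nhds_zero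
  have e4 : Tendsto (fun x : ℝ => x ^ (1 / 4 : ℝ)) atTop atTop := tendsto_rpow_atTop (by norm_num)
  set C₁ : ℝ := 1 + 16 * (3 + 2 * c) * B₀ with hC₁
  have hC₁0 : 0 ≤ C₁ := by positivity
  filter_upwards [e1.eventually_lt_const zero_lt_one, e2.eventually_ge_atTop C₁,
    eventually_ge_atTop 3, e3.eventually_lt_const zero_lt_one,
    e4.eventually_ge_atTop (48 * n / δ),
    Real.tendsto_log_atTop.eventually_ge_atTop (8 / κ)] with x h1 h2 h4 h6 h7 h5 R hR1 hR2
  have hx0 : 0 < x := by linarith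
  have hx1 : 1 ≤ x := by linarith
  set L := Real.log x with hL
  have hL1 : 1 ≤ L := by
    have h6 : (1 : ℝ) ≤ 8 / κ := by
      rw [le_div_iff₀ hκ0]
      linarith
    linarith
  set b := x ^ (κ / (2 * (m + 3))) with hbd
  have hb0 : 0 < b := by positivity
  rw [div_lt_one hb0] at h1
  -- powers
  have pw : ∀ s t : ℝ, s ≤ t → x ^ s ≤ x ^ t := fun s t h => Real.rpow_le_rpow_of_exponent_le hx1 h
  set A := x ^ (((m : ℝ) + 1 + c) / 2) with hA
  have hA0 : 0 < A := by positivity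
  have hR0 : 0 < R := lt_of_lt_of_le (by positivity) hR1
  have hR2' : R ^ 2 ≤ x ^ (κ / 2) := by
    calc R ^ 2 ≤ (x ^ (κ / 4)) ^ 2 := pow_le_pow_left₀ hR0.le hR2 2
      _ = x ^ (κ / 2) := by
        rw [← Real.rpow_natCast, ← Real.rpow_mul hx0.le]
        congr 1
        push_cast
        ring
  have hR2A : R ^ 2 ≤ A := hR2'.trans (pw _ _ (by rw [hκ]; linarith))
  have hRc : R ^ 2 * x ^ c ≤ A := by
    calc R ^ 2 * x ^ c ≤ x ^ (κ / 2) * x ^ c :=
          mul_le_mul_of_nonneg_right hR2' (by positivity)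
      _ = A := by
        rw [← Real.rpow_add hx0]
        congr 1
        rw [hκ]
        ring
  have hAb : A * b ^ (m + 3) = x ^ (m + 1) := by
    rw [hA, hbd, ← Real.rpow_natCast (x ^ (κ / (2 * (m + 3)))), ← Real.rpow_mul hx0.le,
      ← Real.rpow_add hx0, ← Real.rpow_natCast x (m + 1)]
    congr 1
    push_cast
    field_simp
    rw [hκ]
    ring
  -- the logarithm of the modulus
  have hlq : Real.log (4 * (x ^ c) ^ 2) ≤ 2 + 2 * c * L := by
    rw [Real.log_mul (by norm_num) (by positivity), Real.log_pow, Real.log_rpow hx0]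
    have h6 : Real.log 4 ≤ 2 := by
      have h7 : Real.log 4 = 2 * Real.log 2 := by
        rw [show (4 : ℝ) = 2 ^ 2 by norm_num, Real.log_pow]
        push_cast
        ring
      have := Real.log_two_lt_d9
      linarith
    push_cast
    linarith
  have hxc1 : 1 ≤ x ^ c := by
    have := pw 0 c hc0.le
    rwa [Real.rpow_zero] at this
  have hlq0 : 0 ≤ Real.log (4 * (x ^ c) ^ 2) := Real.log_nonneg (by nlinarith)
  -- the main term
  have hmain : x ^ (m + 1) / Real.log R ≤ 8 / κ * (x ^ (m + 1) / L) := by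
    have h6 : κ / 8 * L ≤ Real.log R := by
      have h7 : Real.log (x ^ (κ / 4) / 2) ≤ Real.log R := Real.log_le_log (by positivity) hR1
      rw [Real.log_div (by positivity) two_ne_zero, Real.log_rpow hx0] at h7
      have h8 : Real.log 2 ≤ 1 := by
        have := Real.log_two_lt_d9
        linarith
      have h9 : 1 ≤ κ / 8 * L := by
        have := mul_le_mul_of_nonneg_left h5 (by positivity : (0 : ℝ) ≤ κ / 8)
        have h10 : κ / 8 * (8 / κ) = 1 := by field_simp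
        rw [h10] at this
        exact this
      have h10 : κ / 4 * L = κ / 8 * L + κ / 8 * L := by ring
      rw [← hL] at h7
      linarith
    have h7 : 0 < κ / 8 * L := by positivity
    calc x ^ (m + 1) / Real.log R ≤ x ^ (m + 1) / (κ / 8 * L) :=
          div_le_div_of_nonneg_left (by positivity) h7 h6
      _ = _ := by field_simp
  -- the error term
  have herr : R ^ 2 +
      R ^ 2 * (8 * x ^ c * (1 + Real.log (4 * (x ^ c) ^ 2))) * (2 * (B₀ * L ^ m)) ≤
      x ^ (m + 1) / L := by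
    rw [le_div_iff₀ (by linarith)]
    have hLm : 1 ≤ L ^ m := one_le_pow₀ hL1
    have h8 : R ^ 2 * (8 * x ^ c * (1 + Real.log (4 * (x ^ c) ^ 2))) ≤ A * (8 * (3 + 2 * c) * L) := by
      have h9 : R ^ 2 * (8 * x ^ c * (1 + Real.log (4 * (x ^ c) ^ 2))) =
          (R ^ 2 * x ^ c) * (8 * (1 + Real.log (4 * (x ^ c) ^ 2))) := by ring
      rw [h9]
      refine mul_le_mul hRc ?_ (by positivity) hA0.le
      nlinarith
    have h9 : R ^ 2 +
      R ^ 2 * (8 * x ^ c * (1 + Real.log (4 * (x ^ c) ^ 2))) * (2 * (B₀ * L ^ m)) ≤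
        A * (C₁ * L ^ (m + 1)) := by
      have h10 : R ^ 2 * (8 * x ^ c * (1 + Real.log (4 * (x ^ c) ^ 2))) * (2 * (B₀ * L ^ m)) ≤
          A * (8 * (3 + 2 * c) * L) * (2 * (B₀ * L ^ m)) :=
        mul_le_mul_of_nonneg_right h8 (by positivity)
      have h11 : A * (8 * (3 + 2 * c) * L) * (2 * (B₀ * L ^ m)) =
          A * (16 * (3 + 2 * c) * B₀ * L ^ (m + 1)) := by ring
      have h12 : A ≤ A * L ^ (m + 1) := by
        have : 1 ≤ L ^ (m + 1) := one_le_pow₀ hL1
        nlinarith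
      have h13 : A * (C₁ * L ^ (m + 1)) = A * L ^ (m + 1) +
          A * (16 * (3 + 2 * c) * B₀ * L ^ (m + 1)) := by
        rw [hC₁]
        ring
      linarith
    calc _ ≤ A * (C₁ * L ^ (m + 1)) * L := mul_le_mul_of_nonneg_right h9 (by linarith)
      _ = A * (C₁ * L ^ (m + 2)) := by ring
      _ ≤ A * (b * b ^ (m + 2)) := by
          refine mul_le_mul_of_nonneg_left ?_ hA0.le
          exact mul_le_mul h2 (pow_le_pow_left₀ (by linarith) h1.le _) (by positivity) hb0.le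
      _ = A * b ^ (m + 3) := by ring
      _ = x ^ (m + 1) := hAb
  refine ⟨?_, ?_⟩
  · have hxL : 0 ≤ x ^ (m + 1) / L := by positivity
    have h6 : x ^ (m + 1) / L ≤ 1 / κ * (x ^ (m + 1) / L) := by
      have : (1 : ℝ) ≤ 1 / κ := by
        rw [le_div_iff₀ hκ0]
        linarith
      nlinarith
    have h7 : 9 / κ * (x ^ (m + 1) / L) = 8 / κ * (x ^ (m + 1) / L) + 1 / κ * (x ^ (m + 1) / L) := by
      ring
    rw [h7]
    linarith
  · set e : ℝ := x ^ (1 / 4 : ℝ) with he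
    have he0 : 0 < e := by positivity
    rw [div_lt_one he0] at h6
    have he2 : e * e = √x := by
      rw [he, ← Real.rpow_add hx0, Real.sqrt_eq_rpow]
      norm_num
    have hsx : √x * √x = x := Real.mul_self_sqrt hx0.le
    have hs1 : 1 ≤ √x := by
      rw [Real.one_le_sqrt]
      exact hx1
    have hRs : R ≤ √x := by
      refine hR2.trans ?_
      rw [Real.sqrt_eq_rpow]
      exact pw _ _ (by linarith)
    rw [div_le_iff₀ hδ] at h7
    rw [mul_div_assoc', le_div_iff₀ (by linarith)]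
    have h8 : n * (√x + 1 + R) ≤ n * (3 * √x) := mul_le_mul_of_nonneg_left (by linarith) hn.le
    have h9 : n * (3 * √x) * (8 * L) = 48 * n * (L * √x) / 2 := by ring
    have h10 : 48 * n * (L * √x) ≤ e * δ * (e * √x) :=
      mul_le_mul h7 (mul_le_mul_of_nonneg_right h6.le (by positivity)) (by positivity)
        (by positivity)
    have h11 : e * δ * (e * √x) = δ * x := by
      calc e * δ * (e * √x) = δ * (e * e * √x) := by ring
        _ = δ * x := by rw [he2, hsx]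
    calc n * (√x + 1 + R) * (8 * L) ≤ n * (3 * √x) * (8 * L) :=
          mul_le_mul_of_nonneg_right h8 (by linarith)
      _ = 48 * n * (L * √x) / 2 := h9
      _ ≤ δ / 2 * x := by linarith

section
variable (K : Type) [Field K] [NumberField K]

/-- the constant -/
noncomputable def B0 (n m : ℕ) (c δ : ℝ) : ℝ :=
  9 / (m + 1 - c) * (64 * (m + 1) * n ^ 2 / δ ^ 2) ^ (m + 1)

/-- **Few quadratic characters correlate with a given function.** -/
theorem few {c : ℝ} {m : ℕ} (hc0 : 0 < c) (hc1 : (m : ℝ) ≤ c) (hc2 : c < m + 1) {δ : ℝ}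
    (hδ : 0 < δ) (hδ1 : δ ≤ 1) : ∀ᶠ N : ℕ in atTop,
    ∀ h : HeightOneSpectrum (𝓞 K) → ℝ, (∀ v, |h v| ≤ 1) →
      ∀ T : Finset ℤ, (∀ d ∈ T, Squarefree d ∧ |(d : ℝ)| ≤ (N : ℝ) ^ c ∧
        δ ≤ |mean K (fun v => h v * ch (d : 𝓞 K) v) N|) →
        (T.card : ℝ) ≤ B0 (Module.finrank ℚ K) m c δ * Real.log N ^ m := by
  set κ : ℝ := m + 1 - c with hκ
  have hκ0 : 0 < κ := by linarith
  have hκ1 : κ ≤ 1 := by linarith
  set n : ℝ := (Module.finrank ℚ K : ℝ) with hn
  have hn0 : 0 < n := fr_pos (K := K)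
  have hn1 : 1 ≤ n := by
    have h0 : 1 ≤ Module.finrank ℚ K := Module.finrank_pos
    rw [hn]
    exact_mod_cast h0
  set B : ℝ := B0 (Module.finrank ℚ K) m c δ with hBd
  have hB : B = 9 / κ * (64 * (m + 1) * n ^ 2 / δ ^ 2) ^ (m + 1) := rfl
  have hB1 : 1 ≤ B := by
    have e1 : (1 : ℝ) ≤ 9 / κ := by
      rw [le_div_iff₀ hκ0]
      linarith
    have e2 : (1 : ℝ) ≤ 64 * (m + 1) * n ^ 2 / δ ^ 2 := by
      rw [le_div_iff₀ (by positivity)]
      have e3 : δ ^ 2 ≤ 1 := pow_le_one₀ hδ.le hδ1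
      have e4 : 1 ≤ n ^ 2 := one_le_pow₀ hn1
      have e5 : (0 : ℝ) ≤ m := Nat.cast_nonneg _
      nlinarith
    rw [hB]
    exact one_le_mul_of_one_le_of_one_le e1 (one_le_pow₀ e2)
  have e1 : Tendsto (fun N : ℕ => (N : ℝ) ^ (κ / 4)) atTop atTop :=
    (tendsto_rpow_atTop (by linarith)).comp tendsto_natCast_atTop_atTop
  filter_upwards [(tendsto_natCast_atTop_atTop (R := ℝ)).eventually
      (asym_real hc0 hc1 hc2 (B₀ := B) (by linarith) hn0 hδ), pc_ge,
    (Pool.Agent.U681.GF.card_ratio (F := K)).eventually_const_lt (show (1 / 2 : ℝ) < 1 by norm_num),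
    (Pool.Agent.W529.ST.pc_atTop).eventually_gt_atTop 0, eventually_ge_atTop 3,
    e1.eventually_ge_atTop 4] with N h1 h2 h3 h4 h5 h6 h hh T hT
  obtain ⟨t, ht, htc, hmean⟩ := mean_def (F := K) (fun _ => 0) N
  have hN3 : (3 : ℝ) ≤ N := by exact_mod_cast h5
  have hN0 : (0 : ℝ) < N := by linarith
  set L : ℝ := Real.log N with hL
  have hL1 : 1 ≤ L := by
    have h8 := Real.log_le_log (by norm_num) hN3
    have h9 : (1 : ℝ) ≤ Real.log 3 := by
      rw [Real.le_log_iff_exp_le (by norm_num)]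
      have := Real.exp_one_lt_d9
      linarith
    rw [hL]
    linarith
  rw [htc] at h3
  rw [lt_div_iff₀ h4] at h3
  have htp : (N : ℝ) / (8 * L) ≤ t.card := by
    have h8 : (N : ℝ) / (8 * L) = 1 / 2 * (N / (4 * L)) := by
      field_simp
      norm_num
    rw [h8]
    linarith
  have htp0 : (0 : ℝ) < t.card := lt_of_lt_of_le (by positivity) htp
  set b : ℝ := B * L ^ m with hb
  have hb1 : 1 ≤ b := one_le_mul_of_one_le_of_one_le hB1 (one_le_pow₀ hL1)
  by_contra hcon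
  rw [not_le] at hcon
  obtain ⟨T', hT'T, hT'c⟩ : ∃ T' ⊆ T, T'.card = ⌊b⌋₊ + 1 := by
    refine Finset.exists_subset_card_eq ?_
    have := (Nat.floor_lt (by linarith : 0 ≤ b)).2 hcon
    omega
  have hT'b : b < T'.card := by
    rw [hT'c]
    push_cast
    exact Nat.lt_floor_add_one b
  have hT'2 : (T'.card : ℝ) ≤ 2 * b := by
    rw [hT'c]
    push_cast
    have := Nat.floor_le (by linarith : 0 ≤ b)
    linarith
  -- the moduli
  set X : ℝ := (N : ℝ) ^ c with hX
  have hX1 : 1 ≤ X := by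
    have := Real.rpow_le_rpow_of_exponent_le (show (1 : ℝ) ≤ N by linarith) hc0.le
    rwa [Real.rpow_zero] at this
  set P : ℝ := 8 * X * (1 + Real.log (4 * X ^ 2)) with hP
  have hlX : 0 ≤ Real.log (4 * X ^ 2) := Real.log_nonneg (by nlinarith)
  have hP0 : 0 ≤ P := by positivity
  have hPb : ∀ d ∈ T', ∀ e ∈ T', d ≠ e → ∀ M : ℕ, M ≤ N ^ (m + 1) →
      |∑ k ∈ Icc 1 M, ku d k * ku e k| ≤ P := by
    intro d hd e he hne M _
    obtain ⟨hd1, hd2, -⟩ := hT d (hT'T hd)
    obtain ⟨he1, he2, -⟩ := hT e (hT'T he)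
    refine (pv hd1 he1 hne M).trans ?_
    have h7 : ((4 * (d * e).natAbs : ℕ) : ℝ) ≤ 4 * X ^ 2 := by
      have h8 : (((d * e).natAbs : ℕ) : ℝ) = |(d : ℝ)| * |(e : ℝ)| := by
        rw [Nat.cast_natAbs, Int.cast_abs, Int.cast_mul, abs_mul]
      push_cast
      rw [h8, sq]
      have h9 := mul_le_mul hd2 he2 (abs_nonneg _) (by linarith : (0 : ℝ) ≤ X)
      linarith
    have h70 : (0 : ℝ) < ((4 * (d * e).natAbs : ℕ) : ℝ) := by
      have h8 : 0 < (d * e).natAbs := Int.natAbs_pos.2 (mul_ne_zero hd1.ne_zero he1.ne_zero)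
      exact_mod_cast (by omega : 0 < 4 * (d * e).natAbs)
    have h71 : (1 : ℝ) ≤ ((4 * (d * e).natAbs : ℕ) : ℝ) := by
      have h8 : 0 < 4 * (d * e).natAbs := by exact_mod_cast h70
      exact_mod_cast h8
    have h8 : √((4 * (d * e).natAbs : ℕ) : ℝ) ≤ 2 * X := by
      rw [Real.sqrt_le_left (by positivity)]
      calc ((4 * (d * e).natAbs : ℕ) : ℝ) ≤ 4 * X ^ 2 := h7
        _ = (2 * X) ^ 2 := by ring
    have h9 : Real.log ((4 * (d * e).natAbs : ℕ) : ℝ) ≤ Real.log (4 * X ^ 2) :=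
      Real.log_le_log h70 h7
    have h10 : 0 ≤ Real.log ((4 * (d * e).natAbs : ℕ) : ℝ) := Real.log_nonneg h71
    calc 4 * √((4 * (d * e).natAbs : ℕ) : ℝ) * (1 + Real.log ((4 * (d * e).natAbs : ℕ) : ℝ)) ≤
          4 * (2 * X) * (1 + Real.log (4 * X ^ 2)) :=
          mul_le_mul (by linarith) (by linarith) (by linarith) (by positivity)
      _ = P := by rw [hP]; ring
  set Rn : ℕ := ⌊(N : ℝ) ^ (κ / 4)⌋₊ with hRn
  have hR1 : (Rn : ℝ) ≤ (N : ℝ) ^ (κ / 4) := Nat.floor_le (by positivity)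
  have hR2 : (N : ℝ) ^ (κ / 4) / 2 ≤ Rn := by
    have := Nat.lt_floor_add_one ((N : ℝ) ^ (κ / 4))
    rw [← hRn] at this
    linarith
  have hRn2 : 2 ≤ Rn := by
    have : (2 : ℝ) ≤ Rn := by linarith
    exact_mod_cast this
  obtain ⟨h8, h9⟩ := h1 Rn hR2 hR1
  set s : Finset ℕ := (Icc 1 N).filter (fun p => p.Prime ∧ Rn < p) with hs
  have hmom := moment T' ku (fun d _ k => ku_abs d k) (fun d _ a b _ _ => ku_mul d a b)
    (fun d _ => by unfold ku; rw [Pool.Agent.N429.QFChar.ker_one]; norm_num) hP0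
    (N := N) (m := m + 1) hRn2 hPb (s := s)
    (fun p hp => ⟨(mem_filter.1 hp).2.1, (mem_filter.1 hp).2.2, (mem_Icc.1 (mem_filter.1 hp).1).2⟩)
    (aa h) (aa_abs hh)
  -- the number of the primes
  have hsc : (s.card : ℝ) ≤ 2 * t.card := by
    have h10 : s.card ≤ Nat.primeCounting N := by
      rw [Nat.primeCounting, Nat.primeCounting', Nat.count_eq_card_filter_range]
      refine Finset.card_le_card fun p hp => ?_
      rw [hs, mem_filter, mem_Icc] at hp
      rw [mem_filter, mem_range]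
      exact ⟨by omega, hp.2.1⟩
    have h11 : (s.card : ℝ) ≤ (Nat.primeCounting N : ℝ) := by exact_mod_cast h10
    linarith
  -- the lower bound
  set z : ℝ := δ * t.card / (2 * n) with hz
  have hz0 : 0 < z := by positivity
  have hlow : ∀ d ∈ T', (z ^ (m + 1)) ^ 2 ≤ ((∑ p ∈ s, aa h p * ku d p) ^ (m + 1)) ^ 2 := by
    intro d hd
    obtain ⟨-, -, hge⟩ := hT d (hT'T hd)
    rw [hmean, abs_div, abs_of_pos htp0, le_div_iff₀ htp0] at hge
    have h10 := to_rational (K := K) hh d N Rn ht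
    have h11 : (n * (√(N : ℝ) + 1 + Rn)) ≤ δ / 2 * t.card :=
      h9.trans (mul_le_mul_of_nonneg_left htp (by positivity))
    have h12 : δ / 2 * t.card ≤ n * |∑ p ∈ s, aa h p * ku d p| := by
      have h13 := abs_sub_abs_le_abs_sub (∑ v ∈ t, h v * ch (d : 𝓞 K) v)
        (n * ∑ p ∈ s, aa h p * ku d p)
      rw [abs_mul n, abs_of_pos hn0] at h13
      linarith
    have h13 : z ≤ |∑ p ∈ s, aa h p * ku d p| := by
      rw [hz, div_le_iff₀ (by positivity)]
      linarith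
    rw [← sq_abs ((∑ p ∈ s, aa h p * ku d p) ^ (m + 1)), abs_pow]
    exact pow_le_pow_left₀ (by positivity) (pow_le_pow_left₀ hz0.le h13 _) 2
  have h10 : (T'.card : ℝ) * (z ^ (m + 1)) ^ 2 ≤
      9 / κ * ((N : ℝ) ^ (m + 1) / L) * (((m : ℝ) + 1) ^ (m + 1) * (2 * t.card) ^ (m + 1)) := by
    calc (T'.card : ℝ) * (z ^ (m + 1)) ^ 2 = ∑ d ∈ T', (z ^ (m + 1)) ^ 2 := by
          rw [Finset.sum_const, nsmul_eq_mul]
      _ ≤ ∑ d ∈ T', ((∑ p ∈ s, aa h p * ku d p) ^ (m + 1)) ^ 2 := Finset.sum_le_sum hlow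
      _ ≤ ((N : ℝ) ^ (m + 1) / Real.log Rn + Rn ^ 2 + Rn ^ 2 * P * T'.card) *
          (((m + 1 : ℕ) : ℝ) ^ (m + 1) * (s.card : ℝ) ^ (m + 1)) := hmom
      _ ≤ _ := by
          refine mul_le_mul ?_ ?_ (by positivity) (by positivity)
          · refine le_trans ?_ h8
            have h11 : (Rn : ℝ) ^ 2 * P * T'.card ≤ Rn ^ 2 * P * (2 * b) :=
              mul_le_mul_of_nonneg_left hT'2 (by positivity)
            linarith
          · push_cast
            exact mul_le_mul_of_nonneg_left (pow_le_pow_left₀ (Nat.cast_nonneg _) hsc _)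
              (by positivity)
  -- comparison
  have h11 : 9 / κ * ((N : ℝ) ^ (m + 1) / L) * (((m : ℝ) + 1) ^ (m + 1) * (2 * t.card) ^ (m + 1)) ≤
      b * (z ^ (m + 1)) ^ 2 := by
    have e2 : 9 / κ * ((N : ℝ) ^ (m + 1) / L) * (((m : ℝ) + 1) ^ (m + 1) *
        (2 * t.card) ^ (m + 1)) = 9 / κ * ((2 * (m + 1) * t.card * N) ^ (m + 1) / L) := by
      rw [mul_pow, mul_pow, mul_pow, mul_pow]
      ring
    have e3 : b * (z ^ (m + 1)) ^ 2 = 9 / κ * ((16 * (m + 1) * t.card ^ 2) ^ (m + 1) * L ^ m) := by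
      rw [hb, hB, ← pow_mul, mul_comm (m + 1) 2, pow_mul, mul_assoc, mul_assoc]
      congr 1
      rw [mul_comm (L ^ m), ← mul_assoc, ← mul_pow]
      congr 2
      rw [hz]
      field_simp
      norm_num
    rw [e2, e3]
    refine mul_le_mul_of_nonneg_left ?_ (by positivity)
    rw [div_le_iff₀ (by linarith)]
    have e4 : (N : ℝ) ≤ t.card * (8 * L) := by
      rwa [div_le_iff₀ (by positivity)] at htp
    calc (2 * ((m : ℝ) + 1) * t.card * N) ^ (m + 1) ≤
          (2 * (m + 1) * t.card * (t.card * (8 * L))) ^ (m + 1) :=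
          pow_le_pow_left₀ (by positivity) (mul_le_mul_of_nonneg_left e4 (by positivity)) _
      _ = (16 * (m + 1) * t.card ^ 2) ^ (m + 1) * L ^ m * L := by
          have : 2 * ((m : ℝ) + 1) * t.card * (t.card * (8 * L)) =
            (16 * (m + 1) * t.card ^ 2) * L := by ring
          rw [this, mul_pow (16 * ((m : ℝ) + 1) * t.card ^ 2) L, pow_succ L m, ← mul_assoc]
  have h12 : (T'.card : ℝ) ≤ b :=
    le_of_mul_le_mul_right (h10.trans h11) (by positivity)
  linarith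

end

end Pool.Agent.U681.UT
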