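import Pool.Agent.U681.UT.Ls
import Pool.Agent.N429.QFChar
import Pool.Agent.H38R2.CG.PV
import Pool.Agent.Helper919.NonRes

/-! Sums of quadratic characters. -/

set_option autoImplicit false

namespace Pool.Agent.U681.UT

open Finset Pool.Agent.N429.QFChar

/-- the quadratic character of `d` as a real function -/
noncomputable def ku (d : ℤ) (n : ℕ) : ℝ := (ker d n : ℝ)

theorem ker_vals (d : ℤ) (n : ℕ) : ker d n = 0 ∨ ker d n = 1 ∨ ker d n = -1 := by
  unfold ker
  split_ifs
  · exact jacobiSym.trichotomy d n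
  · exact Or.inl rfl

theorem ku_abs (d : ℤ) (n : ℕ) : |ku d n| ≤ 1 := by
  unfold ku
  rcases ker_vals d n with h | h | h <;> rw [h] <;> norm_num

theorem ku_mul (d : ℤ) (a b : ℕ) : ku d (a * b) = ku d a * ku d b := by
  unfold ku
  rw [ker_mul]
  push_cast
  rfl

theorem ku_mul_left {d e : ℤ} (n : ℕ) : ku d n * ku e n = ku (d * e) n := by
  unfold ku
  have h : ker d n * ker e n = ker (d * e) n := by
    unfold ker
    rw [Int.natAbs_mul]
    by_cases h1 : n.Coprime (4 * d.natAbs)
    · by_cases h2 : n.Coprime (4 * e.natAbs)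
      · rw [if_pos h1, if_pos h2, if_pos, jacobiSym.mul_left]
        rw [← mul_assoc]
        exact Nat.Coprime.mul_right h1 (Nat.Coprime.coprime_mul_left_right h2)
      · rw [if_neg h2, mul_zero, if_neg]
        intro h3
        apply h2
        rw [← mul_assoc] at h3
        exact Nat.Coprime.mul_right (Nat.Coprime.coprime_mul_right_right
          (Nat.Coprime.coprime_mul_right_right h3)) (Nat.Coprime.coprime_mul_left_right h3)
    · rw [if_neg h1, zero_mul, if_neg]
      intro h3
      apply h1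
      rw [← mul_assoc] at h3
      exact Nat.Coprime.coprime_mul_right_right h3
  rw [← h]
  push_cast
  rfl

/-- different squarefree numbers are in different square classes -/
theorem not_square {d e : ℤ} (hd : Squarefree d) (he : Squarefree e) (hne : d ≠ e) :
    ¬ IsSquare (d * e) := by
  rintro ⟨r, hr⟩
  have h1 : d.natAbs * e.natAbs = r.natAbs * r.natAbs := by
    rw [← Int.natAbs_mul, hr, Int.natAbs_mul]
  have key : ∀ a b : ℕ, Squarefree a → Squarefree b → a * b = r.natAbs * r.natAbs → a ∣ b := by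
    intro a b ha hb hab
    have h2 : a ∣ r.natAbs ^ 2 := by
      rw [sq, ← hab]
      exact dvd_mul_right _ _
    obtain ⟨s, hs⟩ := (ha.dvd_pow_iff_dvd two_ne_zero).1 h2
    refine ⟨s * s, ?_⟩
    have ha0 : 0 < a := Nat.pos_of_ne_zero ha.ne_zero
    rw [hs] at hab
    refine Nat.eq_of_mul_eq_mul_left ha0 ?_
    rw [hab]
    ring
  have hd' : Squarefree d.natAbs := Int.squarefree_natAbs.2 hd
  have he' : Squarefree e.natAbs := Int.squarefree_natAbs.2 he
  have h2 : d.natAbs = e.natAbs := Nat.dvd_antisymm (key _ _ hd' he' h1)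
    (key _ _ he' hd' (by rw [mul_comm]; exact h1))
  rcases Int.natAbs_eq_natAbs_iff.1 h2 with h3 | h3
  · exact hne h3
  · rw [h3] at hr
    have he0 : e ≠ 0 := he.ne_zero
    have h4 : 0 < e * e := mul_self_pos.2 he0
    nlinarith [mul_self_nonneg r]

/-- the Polya-Vinogradov inequality -/
theorem pv {d e : ℤ} (hd : Squarefree d) (he : Squarefree e) (hne : d ≠ e) (M : ℕ) :
    |∑ n ∈ Icc 1 M, ku d n * ku e n| ≤
      4 * √((4 * (d * e).natAbs : ℕ) : ℝ) * (1 + Real.log ((4 * (d * e).natAbs : ℕ) : ℝ)) := by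
  have h0 : d * e ≠ 0 := mul_ne_zero hd.ne_zero he.ne_zero
  have h1 : 0 < (d * e).natAbs := Int.natAbs_pos.2 h0
  have hz : NeZero (4 * (d * e).natAbs) := ⟨by omega⟩
  have h2 : kch (d * e) ≠ 1 := by
    intro h
    obtain ⟨m, hm, hJ⟩ := Pool.Agent.Helper919.exists_jacobi_neg_one (d * e) (not_square hd he hne)
    have h3 := kch_nat (d * e) m
    have h4 : m.Coprime (4 * (d * e).natAbs) := by
      have h5 : m.Coprime 4 := by
        have := Nat.coprime_two_right.mpr hm
        exact Nat.Coprime.pow_right 2 this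
      refine Nat.Coprime.mul_right h5 ?_
      by_contra h6
      have h7 : NeZero m := ⟨fun h0 => by rw [h0] at hm; exact absurd hm (by decide)⟩
      have h8 : jacobiSym (d * e) m = 0 := by
        rw [jacobiSym.eq_zero_iff_not_coprime]
        intro h9
        apply h6
        rw [Nat.coprime_iff_gcd_eq_one, Nat.gcd_comm]
        rw [Int.gcd_def] at h9
        simpa using h9
      rw [h8] at hJ
      norm_num at hJ
    unfold ker at h3
    rw [if_pos h4, hJ, h, MulChar.one_apply ((ZMod.isUnit_iff_coprime m _).2 h4)] at h3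
    norm_num at h3
  have h3 := Pool.Agent.H38R2.CG.PVh.sum_le (4 * (d * e).natAbs) (kch (d * e)) (by omega) h2 M
  have h4 : ∑ n ∈ Icc 1 M, kch (d * e) (n : ZMod (4 * (d * e).natAbs)) =
      ((∑ n ∈ Icc 1 M, ku d n * ku e n : ℝ) : ℂ) := by
    rw [Complex.ofReal_sum]
    refine Finset.sum_congr rfl fun n _ => ?_
    rw [kch_nat, ku_mul_left]
    unfold ku
    push_cast
    rfl
  rw [h4, Complex.norm_real, Real.norm_eq_abs] at h3
  exact h3

end Pool.Agent.U681.UT
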