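import Pool.Agent.U681.UT.Bad
import Pool.Agent.W529.ST.Count

/-! Counting the exceptional twists. -/

set_option autoImplicit false

namespace Pool.Agent.U681.UT

open Finset NumberField IsDedekindDomain Filter Topology Pool.Agent.H341R2
open Pool.Agent.W353.TP
open Pool.Agent.W529.ST

section
variable {K : Type} [Field K] [NumberField K]

open Classical in
/-- counting with cells -/
theorem count {T : Finset ℤ} {N : ℕ} {ι : Type} [Fintype ι] {k : ℝ} (hk : 0 < k) {Q : ℝ}
    (hQ : ∀ h : HeightOneSpectrum (𝓞 K) → ℝ, (∀ v, |h v| ≤ 1) → ∀ T' ⊆ T,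
      (∀ d ∈ T', 1 / (2 * k * Fintype.card ι) ≤ |mean K (fun v => h v * ch (d : 𝓞 K) v) N|) →
        (T'.card : ℝ) ≤ Q)
    (i j : HeightOneSpectrum (𝓞 K) → ι)
    (hT : ∀ d ∈ T, ∃ (r : ι → ℝ) (A B : HeightOneSpectrum (𝓞 K) → ℝ),
      (∀ c, |r c| ≤ 1) ∧ (∀ v, |A v - r (i v)| ≤ 1 / (2 * k)) ∧
      (∀ v, |B v - r (j v)| ≤ 1 / (2 * k)) ∧
      1 / k ≤ |mean K (fun v => ch (d : 𝓞 K) v * ((A v - B v) / 2)) N|) :
    (T.card : ℝ) ≤ Fintype.card ι * Q := by
  set ν : ℝ := (Fintype.card ι : ℝ) with hν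
  have hν0 : 0 ≤ ν := Nat.cast_nonneg _
  let h : ι → HeightOneSpectrum (𝓞 K) → ℝ := fun c v =>
    ((if i v = c then 1 else 0) - (if j v = c then 1 else 0)) / 2
  let y : ι → ℤ → ℝ := fun c d => mean K (fun v => h c v * ch (d : 𝓞 K) v) N
  have h1 : ∀ d ∈ T, ∃ c, 1 / (2 * k * ν) ≤ |y c d| := by
    intro d hd
    obtain ⟨r, A, B, hr, hA, hB', hge⟩ := hT d hd
    have e1 : mean K (fun v => ch (d : 𝓞 K) v * ((r (i v) - r (j v)) / 2)) N =
        ∑ c, r c * y c d := by
      have e2 : (fun v => ch (d : 𝓞 K) v * ((r (i v) - r (j v)) / 2)) =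
          fun v => ∑ c, r c * (h c v * ch (d : 𝓞 K) v) := by
        funext v
        have e3 : ∑ c, r c * (h c v * ch (d : 𝓞 K) v) =
            ch (d : 𝓞 K) v * (((∑ c, (if i v = c then r c else 0)) -
              ∑ c, (if j v = c then r c else 0)) / 2) := by
          rw [← Finset.sum_sub_distrib, Finset.sum_div, Finset.mul_sum]
          refine Finset.sum_congr rfl fun c _ => ?_
          change r c * (((if i v = c then 1 else 0) - (if j v = c then 1 else 0)) / 2 *
            ch (d : 𝓞 K) v) = _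
          split_ifs <;> ring
        rw [e3, Finset.sum_ite_eq, Finset.sum_ite_eq, if_pos (Finset.mem_univ _),
          if_pos (Finset.mem_univ _)]
      rw [e2, mean_sum]
      exact Finset.sum_congr rfl fun c _ => mean_const_mul _ _ _
    have e4 : |mean K (fun v => ch (d : 𝓞 K) v * ((A v - B v) / 2)) N -
        mean K (fun v => ch (d : 𝓞 K) v * ((r (i v) - r (j v)) / 2)) N| ≤ 1 / (2 * k) := by
      refine mean_close (fun v => ?_) N
      have e5 : ch (d : 𝓞 K) v * ((A v - B v) / 2) - ch (d : 𝓞 K) v * ((r (i v) - r (j v)) / 2) =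
          ch (d : 𝓞 K) v * (((A v - r (i v)) - (B v - r (j v))) / 2) := by ring
      rw [e5, abs_mul]
      have e6 : |((A v - r (i v)) - (B v - r (j v))) / 2| ≤ 1 / (2 * k) := by
        have h1 := abs_le.1 (hA v)
        have h2 := abs_le.1 (hB' v)
        rw [abs_le]
        constructor <;> linarith [h1.1, h1.2, h2.1, h2.2]
      calc |ch (d : 𝓞 K) v| * |((A v - r (i v)) - (B v - r (j v))) / 2| ≤ 1 * (1 / (2 * k)) :=
            mul_le_mul (ch_abs _ v) e6 (abs_nonneg _) zero_le_one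
        _ = _ := one_mul _
    have e5 : 1 / (2 * k) ≤ |∑ c, r c * y c d| := by
      rw [← e1]
      have e6 : (1 : ℝ) / k = 2 * (1 / (2 * k)) := by field_simp
      have e7 := abs_sub_abs_le_abs_sub (mean K (fun v => ch (d : 𝓞 K) v * ((A v - B v) / 2)) N)
        (mean K (fun v => ch (d : 𝓞 K) v * ((r (i v) - r (j v)) / 2)) N)
      rw [e6] at hge
      linarith
    by_contra hcon
    push Not at hcon
    have hne : Nonempty ι := by
      by_contra hemp
      rw [not_nonempty_iff] at hemp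
      rw [Finset.univ_eq_empty, Finset.sum_empty, abs_zero] at e5
      have : 0 < 1 / (2 * k) := by positivity
      linarith
    have e6 : |∑ c, r c * y c d| ≤ ∑ c, |y c d| := by
      refine (Finset.abs_sum_le_sum_abs _ _).trans (Finset.sum_le_sum fun c _ => ?_)
      rw [abs_mul]
      calc |r c| * |y c d| ≤ 1 * |y c d| := mul_le_mul_of_nonneg_right (hr c) (abs_nonneg _)
        _ = _ := one_mul _
    have e7 : ∑ c, |y c d| < ∑ _c : ι, 1 / (2 * k * ν) :=
      Finset.sum_lt_sum_of_nonempty Finset.univ_nonempty fun c _ => hcon c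
    have hν1 : 0 < ν := by
      rw [hν]
      exact_mod_cast Fintype.card_pos
    rw [Finset.sum_const, Finset.card_univ, nsmul_eq_mul, ← hν] at e7
    have e8 : ν * (1 / (2 * k * ν)) = 1 / (2 * k) := by field_simp
    rw [e8] at e7
    linarith
  have h2 : T ⊆ Finset.univ.biUnion fun c : ι => T.filter fun d => 1 / (2 * k * ν) ≤ |y c d| := by
    intro d hd
    obtain ⟨c, hc⟩ := h1 d hd
    exact Finset.mem_biUnion.2 ⟨c, Finset.mem_univ _, Finset.mem_filter.2 ⟨hd, hc⟩⟩
  have h3 : (T.card : ℝ) ≤ ∑ c : ι, ((T.filter fun d => 1 / (2 * k * ν) ≤ |y c d|).card : ℝ) := by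
    have := (Finset.card_le_card h2).trans Finset.card_biUnion_le
    exact_mod_cast this
  refine h3.trans ?_
  calc ∑ c : ι, ((T.filter fun d => 1 / (2 * k * ν) ≤ |y c d|).card : ℝ) ≤ ∑ _c : ι, Q := by
        refine Finset.sum_le_sum fun c _ => hQ (h c) (fun v => ?_) _ (Finset.filter_subset _ _)
          fun d hd => (Finset.mem_filter.1 hd).2
        change |((if i v = c then (1 : ℝ) else 0) - (if j v = c then 1 else 0)) / 2| ≤ 1
        split_ifs <;> norm_num
    _ = ν * Q := by rw [Finset.sum_const, Finset.card_univ, nsmul_eq_mul]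

end

end Pool.Agent.U681.UT
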