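import Pool.Agent.U681.STw.Defs

/-!
# The classes of the quadratic twists and the laws of the `L`-polynomials
-/

set_option autoImplicit false

namespace Pool.Agent.U681.UT

open NumberField IsDedekindDomain
open Pool.Agent.K4H40.ST (IsFrob G1)
open Pool.Agent.U681.STw (cf IsTwist)

/-- The coefficients `a_1, ..., a_g` of the polynomial `det (1 - M T)`.  For `M` in a compact group of
symplectic matrices they are real and determine the polynomial, since `a_0 = 1` and
`a_(2g-i) = a_i`. -/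
noncomputable def lp {g : ℕ} (M : GL (Fin g ⊕ Fin g) ℂ) : Fin g → ℝ := fun i => cf (i + 1) M

/-- test functions on `ℝ^g`: `1`-Lipschitz for the maximum norm, with values in `[-1, 1]` -/
def IsTest {g : ℕ} (f : (Fin g → ℝ) → ℝ) : Prop := LipschitzWith 1 f ∧ ∀ a, |f a| ≤ 1

/-- `y` is a system of the classes of the quadratic twist `r'` of `r` by `d`: for every prime `v` that is
not in `Z` and does not divide `2 d`, `y v` is conjugate in `G¹` to `N(v)^(-1/2)` times the image of a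
Frobenius element at `v` under `r'`. -/
def IsTwistSystem {K : Type} [Field K] [NumberField K] {g : ℕ}
    (r : Gal(AlgebraicClosure K/K) →* GL (Fin g ⊕ Fin g) ℂ) (C : Subgroup (GL (Fin g ⊕ Fin g) ℂ))
    (Z : Set (HeightOneSpectrum (𝓞 K))) (d : 𝓞 K) (y : HeightOneSpectrum (𝓞 K) → C) : Prop :=
  ∃ r' : Gal(AlgebraicClosure K/K) →* GL (Fin g ⊕ Fin g) ℂ, IsTwist r r' d ∧
    ∀ v : HeightOneSpectrum (𝓞 K), v ∉ Z → 2 * d ∉ v.asIdeal →
      ∃ σ : Gal(AlgebraicClosure K/K), IsFrob K (AlgebraicClosure K) v σ ∧ ∃ h ∈ G1 r',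
        ((h * (y v : GL (Fin g ⊕ Fin g) ℂ) * h⁻¹ : GL (Fin g ⊕ Fin g) ℂ) :
          Matrix (Fin g ⊕ Fin g) (Fin g ⊕ Fin g) ℂ) =
            (((Real.sqrt (Ideal.absNorm v.asIdeal))⁻¹ : ℝ) : ℂ) •
              (r' σ : Matrix (Fin g ⊕ Fin g) (Fin g ⊕ Fin g) ℂ)

end Pool.Agent.U681.UT
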