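import Pool.Agent.H376R2.MR.Selw

/-! A large sieve inequality at the numbers without small divisors, for finitely many almost
orthogonal multiplicative functions. -/

set_option autoImplicit false

namespace Pool.Agent.U681.UT

open Finset

theorem sum_dvd (g : ℕ → ℝ) {m : ℕ} (hm : 1 ≤ m) (N : ℕ) :
    ∑ n ∈ Icc 1 N, (if m ∣ n then g n else 0) = ∑ k ∈ Icc 1 (N / m), g (m * k) := by
  rw [← Finset.sum_filter]
  refine (Finset.sum_nbij' (fun k => m * k) (fun n => n / m) ?_ ?_ ?_ ?_ ?_).symm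
  · intro k hk
    rw [mem_Icc] at hk
    rw [mem_filter, mem_Icc]
    refine ⟨⟨Nat.mul_pos hm hk.1, ?_⟩, dvd_mul_right _ _⟩
    have := (Nat.le_div_iff_mul_le hm).1 hk.2
    rwa [mul_comm]
  · intro n hn
    rw [mem_filter, mem_Icc] at hn
    obtain ⟨⟨h1, h2⟩, k, rfl⟩ := hn
    rw [Nat.mul_div_cancel_left _ hm, mem_Icc]
    refine ⟨?_, ?_⟩
    · by_contra h
      have : k = 0 := by omega
      rw [this] at h1
      simp at h1
    · rw [Nat.le_div_iff_mul_le hm, mul_comm]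
      exact h2
  · intro k _
    exact Nat.mul_div_cancel_left _ hm
  · intro n hn
    rw [mem_filter] at hn
    exact Nat.mul_div_cancel' hn.2
  · intro k _
    rfl

/-- the sieve weight -/
def wt (l : ℕ → ℝ) (R n : ℕ) : ℝ := ∑ r ∈ Icc 1 R, if r ∣ n then l r else 0

/-- numbers without divisors in `[2, R]` -/
def Rough (R n : ℕ) : Prop := ∀ r, 2 ≤ r → r ≤ R → ¬ r ∣ n

theorem wt_rough {l : ℕ → ℝ} (h1 : l 1 = 1) {R n : ℕ} (hR : 1 ≤ R) (hn : Rough R n) :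
    wt l R n = 1 := by
  unfold wt
  rw [Finset.sum_eq_single_of_mem 1 (mem_Icc.2 ⟨le_rfl, hR⟩), if_pos (one_dvd _), h1]
  intro r hr hr1
  rw [mem_Icc] at hr
  rw [if_neg]
  exact hn r (by omega) hr.2

theorem wt_sq (l : ℕ → ℝ) (R n : ℕ) :
    wt l R n ^ 2 = ∑ r ∈ Icc 1 R, ∑ s ∈ Icc 1 R, if Nat.lcm r s ∣ n then l r * l s else 0 := by
  unfold wt
  rw [sq, Finset.sum_mul_sum]
  refine Finset.sum_congr rfl fun r _ => Finset.sum_congr rfl fun s _ => ?_
  by_cases h1 : r ∣ n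
  · by_cases h2 : s ∣ n
    · rw [if_pos h1, if_pos h2, if_pos (Nat.lcm_dvd h1 h2)]
    · rw [if_neg h2, mul_zero, if_neg]
      exact fun h => h2 ((Nat.dvd_lcm_right r s).trans h)
  · rw [if_neg h1, zero_mul, if_neg]
    exact fun h => h1 ((Nat.dvd_lcm_left r s).trans h)

theorem wt_sum (l : ℕ → ℝ) (R N : ℕ) (g : ℕ → ℝ) :
    ∑ n ∈ Icc 1 N, wt l R n ^ 2 * g n =
      ∑ r ∈ Icc 1 R, ∑ s ∈ Icc 1 R, l r * l s * ∑ k ∈ Icc 1 (N / Nat.lcm r s),
        g (Nat.lcm r s * k) := by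
  have h1 : ∀ n ∈ Icc 1 N, wt l R n ^ 2 * g n =
      ∑ r ∈ Icc 1 R, ∑ s ∈ Icc 1 R, l r * l s * (if Nat.lcm r s ∣ n then g n else 0) := by
    intro n _
    rw [wt_sq, Finset.sum_mul]
    refine Finset.sum_congr rfl fun r _ => ?_
    rw [Finset.sum_mul]
    refine Finset.sum_congr rfl fun s _ => ?_
    split_ifs <;> ring
  rw [Finset.sum_congr rfl h1, Finset.sum_comm]
  refine Finset.sum_congr rfl fun r hr => ?_
  rw [Finset.sum_comm]
  refine Finset.sum_congr rfl fun s hs => ?_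
  rw [← Finset.mul_sum, sum_dvd]
  rw [mem_Icc] at hr hs
  exact Nat.lcm_pos (by omega) (by omega)

theorem card_sq (R : ℕ) : ∑ _r ∈ Icc 1 R, ∑ _s ∈ Icc 1 R, (1 : ℝ) = (R : ℝ) ^ 2 := by
  simp [sq]

open Classical in
/-- **The large sieve inequality at the rough numbers.** -/
theorem large_sieve {ι : Type} (T : Finset ι) (u : ι → ℕ → ℝ) (hu : ∀ i ∈ T, ∀ n, |u i n| ≤ 1)
    (hmul : ∀ i ∈ T, ∀ a b, 1 ≤ a → 1 ≤ b → u i (a * b) = u i a * u i b) {P : ℝ} (hP0 : 0 ≤ P)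
    {N R : ℕ} (hR : 2 ≤ R)
    (hP : ∀ i ∈ T, ∀ j ∈ T, i ≠ j → ∀ M : ℕ, M ≤ N → |∑ n ∈ Icc 1 M, u i n * u j n| ≤ P)
    (c : ι → ℝ) :
    ∑ n ∈ (Icc 1 N).filter (Rough R), (∑ i ∈ T, c i * u i n) ^ 2 ≤
      (N / Real.log R + R ^ 2 + R ^ 2 * P * T.card) * ∑ i ∈ T, c i ^ 2 := by
  obtain ⟨l, h1, hb, -, -, hnn, hle⟩ := Pool.Agent.H376R2.MR.sel_weights R hR
  have hll : ∀ r s, |l r * l s| ≤ 1 := fun r s => by
    rw [abs_mul]
    exact mul_le_one₀ (hb r) (abs_nonneg _) (hb s)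
  -- the rough numbers
  have e1 : ∑ n ∈ (Icc 1 N).filter (Rough R), (∑ i ∈ T, c i * u i n) ^ 2 ≤
      ∑ n ∈ Icc 1 N, wt l R n ^ 2 * (∑ i ∈ T, c i * u i n) ^ 2 := by
    rw [Finset.sum_filter]
    refine Finset.sum_le_sum fun n _ => ?_
    split_ifs with h
    · rw [wt_rough h1 (by omega) h, one_pow, one_mul]
    · positivity
  -- the diagonal
  have hdiag : ∀ i ∈ T, ∑ n ∈ Icc 1 N, wt l R n ^ 2 * (u i n * u i n) ≤
      N / Real.log R + R ^ 2 := by
    intro i hi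
    have h2 : ∑ n ∈ Icc 1 N, wt l R n ^ 2 * (u i n * u i n) ≤
        ∑ n ∈ Icc 1 N, wt l R n ^ 2 * 1 := by
      refine Finset.sum_le_sum fun n _ => mul_le_mul_of_nonneg_left ?_ (sq_nonneg _)
      rw [← sq]
      exact (sq_le_one_iff_abs_le_one _).2 (hu i hi n)
    refine h2.trans ?_
    rw [wt_sum l R N fun _ => 1]
    have h3 : ∀ r ∈ Icc 1 R, ∀ s ∈ Icc 1 R,
        l r * l s * ∑ _k ∈ Icc 1 (N / Nat.lcm r s), (1 : ℝ) ≤
          N * (l r * l s / (Nat.lcm r s : ℝ)) + 1 := by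
      intro r hr s hs
      rw [mem_Icc] at hr hs
      have hlcm : 0 < Nat.lcm r s := Nat.lcm_pos (by omega) (by omega)
      have hlcmR : (0 : ℝ) < (Nat.lcm r s : ℝ) := by exact_mod_cast hlcm
      rw [Finset.sum_const, Nat.card_Icc, nsmul_eq_mul, mul_one, Nat.add_sub_cancel]
      have h4 : |((N / Nat.lcm r s : ℕ) : ℝ) - N / (Nat.lcm r s : ℝ)| ≤ 1 := by
        rw [abs_le]
        constructor
        · have := Nat.lt_floor_add_one ((N : ℝ) / (Nat.lcm r s : ℝ))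
          rw [Nat.floor_div_eq_div] at this
          linarith
        · have : ((N / Nat.lcm r s : ℕ) : ℝ) ≤ N / (Nat.lcm r s : ℝ) := Nat.cast_div_le
          linarith
      have h5 : l r * l s * ((N / Nat.lcm r s : ℕ) : ℝ) - N * (l r * l s / (Nat.lcm r s : ℝ)) =
          l r * l s * (((N / Nat.lcm r s : ℕ) : ℝ) - N / (Nat.lcm r s : ℝ)) := by ring
      have h6 : |l r * l s * (((N / Nat.lcm r s : ℕ) : ℝ) - N / (Nat.lcm r s : ℝ))| ≤ 1 := by
        rw [abs_mul]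
        exact mul_le_one₀ (hll r s) (abs_nonneg _) h4
      have h7 := (abs_le.1 h6).2
      linarith
    refine (Finset.sum_le_sum fun r hr => Finset.sum_le_sum fun s hs => h3 r hr s hs).trans ?_
    have h4 : ∑ r ∈ Icc 1 R, ∑ s ∈ Icc 1 R, ((N : ℝ) * (l r * l s / (Nat.lcm r s : ℝ)) + 1) =
        N * (∑ r ∈ Icc 1 R, ∑ s ∈ Icc 1 R, l r * l s / (Nat.lcm r s : ℝ)) + (R : ℝ) ^ 2 := by
      simp only [Finset.sum_add_distrib]
      rw [card_sq, Finset.mul_sum]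
      congr 1
      exact Finset.sum_congr rfl fun r _ => (Finset.mul_sum _ _ _).symm
    rw [h4]
    have h5 : (N : ℝ) * (∑ r ∈ Icc 1 R, ∑ s ∈ Icc 1 R, l r * l s / (Nat.lcm r s : ℝ)) ≤
        N * (1 / Real.log R) := mul_le_mul_of_nonneg_left hle (Nat.cast_nonneg _)
    rw [mul_one_div] at h5
    linarith
  -- the other terms
  have hoff : ∀ i ∈ T, ∀ j ∈ T, i ≠ j →
      |∑ n ∈ Icc 1 N, wt l R n ^ 2 * (u i n * u j n)| ≤ R ^ 2 * P := by
    intro i hi j hj hij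
    rw [wt_sum l R N fun n => u i n * u j n]
    have h3 : ∀ r ∈ Icc 1 R, ∀ s ∈ Icc 1 R,
        |l r * l s * ∑ k ∈ Icc 1 (N / Nat.lcm r s), u i (Nat.lcm r s * k) * u j (Nat.lcm r s * k)| ≤
          1 * P := by
      intro r hr s hs
      rw [mem_Icc] at hr hs
      have hlcm : 0 < Nat.lcm r s := Nat.lcm_pos (by omega) (by omega)
      rw [abs_mul]
      refine mul_le_mul (hll r s) ?_ (abs_nonneg _) zero_le_one
      have h4 : ∑ k ∈ Icc 1 (N / Nat.lcm r s), u i (Nat.lcm r s * k) * u j (Nat.lcm r s * k) =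
          (u i (Nat.lcm r s) * u j (Nat.lcm r s)) * ∑ k ∈ Icc 1 (N / Nat.lcm r s), u i k * u j k := by
        rw [Finset.mul_sum]
        refine Finset.sum_congr rfl fun k hk => ?_
        rw [mem_Icc] at hk
        rw [hmul i hi _ _ hlcm hk.1, hmul j hj _ _ hlcm hk.1]
        ring
      rw [h4, abs_mul]
      have h5 : |u i (Nat.lcm r s) * u j (Nat.lcm r s)| ≤ 1 := by
        rw [abs_mul]
        exact mul_le_one₀ (hu i hi _) (abs_nonneg _) (hu j hj _)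
      calc |u i (Nat.lcm r s) * u j (Nat.lcm r s)| *
            |∑ k ∈ Icc 1 (N / Nat.lcm r s), u i k * u j k| ≤ 1 * P :=
            mul_le_mul h5 (hP i hi j hj hij _ (Nat.div_le_self _ _)) (abs_nonneg _) zero_le_one
        _ = P := one_mul P
    refine (Finset.abs_sum_le_sum_abs _ _).trans ?_
    refine (Finset.sum_le_sum fun r hr => (Finset.abs_sum_le_sum_abs _ _).trans
      (Finset.sum_le_sum fun s hs => h3 r hr s hs)).trans (le_of_eq ?_)
    rw [← card_sq, Finset.sum_mul]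
    refine Finset.sum_congr rfl fun r _ => ?_
    rw [Finset.sum_mul]
  -- the double sum
  have e2 : ∑ n ∈ Icc 1 N, wt l R n ^ 2 * (∑ i ∈ T, c i * u i n) ^ 2 =
      ∑ i ∈ T, ∑ j ∈ T, c i * c j * ∑ n ∈ Icc 1 N, wt l R n ^ 2 * (u i n * u j n) := by
    have h2 : ∀ n ∈ Icc 1 N, wt l R n ^ 2 * (∑ i ∈ T, c i * u i n) ^ 2 =
        ∑ i ∈ T, ∑ j ∈ T, c i * c j * (wt l R n ^ 2 * (u i n * u j n)) := by
      intro n _
      rw [sq (∑ i ∈ T, c i * u i n), Finset.sum_mul_sum, Finset.mul_sum]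
      refine Finset.sum_congr rfl fun i _ => ?_
      rw [Finset.mul_sum]
      exact Finset.sum_congr rfl fun j _ => by ring
    rw [Finset.sum_congr rfl h2, Finset.sum_comm]
    refine Finset.sum_congr rfl fun i _ => ?_
    rw [Finset.sum_comm]
    exact Finset.sum_congr rfl fun j _ => (Finset.mul_sum _ _ _).symm
  refine e1.trans ?_
  rw [e2]
  have hD0 : 0 ≤ (N : ℝ) / Real.log R + R ^ 2 := by
    have : 0 ≤ Real.log R := Real.log_natCast_nonneg R
    positivity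
  have h3 : ∀ i ∈ T, ∀ j ∈ T, c i * c j * ∑ n ∈ Icc 1 N, wt l R n ^ 2 * (u i n * u j n) ≤
      (if i = j then c i ^ 2 * (N / Real.log R + R ^ 2) else 0) + |c i| * |c j| * (R ^ 2 * P) := by
    intro i hi j hj
    by_cases hij : i = j
    · subst hij
      rw [if_pos rfl, ← sq (c i)]
      have h4 := mul_le_mul_of_nonneg_left (hdiag i hi) (sq_nonneg (c i))
      have h5 : 0 ≤ |c i| * |c i| * ((R : ℝ) ^ 2 * P) := by positivity
      linarith
    · rw [if_neg hij, zero_add]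
      refine (le_abs_self _).trans ?_
      rw [abs_mul, abs_mul]
      exact mul_le_mul_of_nonneg_left (hoff i hi j hj hij) (by positivity)
  refine (Finset.sum_le_sum fun i hi => Finset.sum_le_sum fun j hj => h3 i hi j hj).trans ?_
  have e3 : ∑ i ∈ T, ∑ j ∈ T, ((if i = j then c i ^ 2 * ((N : ℝ) / Real.log R + R ^ 2) else 0) +
      |c i| * |c j| * ((R : ℝ) ^ 2 * P)) =
      (∑ i ∈ T, c i ^ 2) * (N / Real.log R + R ^ 2) + (∑ i ∈ T, |c i|) ^ 2 * (R ^ 2 * P) := by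
    simp only [Finset.sum_add_distrib, Finset.sum_ite_eq]
    congr 1
    · rw [Finset.sum_mul]
      exact Finset.sum_congr rfl fun i hi => if_pos hi
    · rw [sq (∑ i ∈ T, |c i|), Finset.sum_mul_sum, Finset.sum_mul]
      exact Finset.sum_congr rfl fun i _ => by rw [Finset.sum_mul]
  rw [e3]
  have h4 : (∑ i ∈ T, |c i|) ^ 2 ≤ T.card * ∑ i ∈ T, c i ^ 2 := by
    have := sq_sum_le_card_mul_sum_sq (s := T) (f := fun i => |c i|)
    simpa only [sq_abs] using this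
  have h5 : (∑ i ∈ T, |c i|) ^ 2 * ((R : ℝ) ^ 2 * P) ≤
      (T.card * ∑ i ∈ T, c i ^ 2) * (R ^ 2 * P) :=
    mul_le_mul_of_nonneg_right h4 (by positivity)
  linarith

end Pool.Agent.U681.UT
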