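import Pool.Agent.U681.UT.Sy
import Pool.Agent.U681.UT.Ct

/-! The uniform law of the quadratic twists. -/

set_option autoImplicit false

namespace Pool.Agent.U681.UT

open NumberField IsDedekindDomain Filter Topology MeasureTheory
open Pool.Agent.K4H40.ST Pool.Agent.K4H40.ST.Zar Pool.Agent.U681.STw
open Pool.Agent.U681.GF (bd bd_nonneg cf_bound)
open Pool.Agent.W529.ST (ch ch_abs ch_dichotomy)

/-! ### cells -/

/-- the number of cells in one direction -/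
def mc (g k : ℕ) : ℕ := 8 * k * (2 * g).choose g + 1

theorem bd_eq (g : ℕ) : bd g = ((2 * g).choose g : ℝ) := by
  unfold bd
  rw [Nat.mul_div_cancel_left g zero_lt_two]

/-- the cell of a point -/
noncomputable def cell {g : ℕ} (k : ℕ) (a : Fin g → ℝ) : Fin g → Fin (mc g k) := fun i =>
  ⟨min ⌊(a i + bd g) * (4 * k)⌋₊ (8 * k * (2 * g).choose g), by
    unfold mc
    exact Nat.lt_succ_of_le (min_le_right _ _)⟩

theorem cell_close {g k : ℕ} (hk : 1 ≤ k) {a b : Fin g → ℝ}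
    (ha : a ∈ Metric.closedBall (0 : Fin g → ℝ) (bd g))
    (hb : b ∈ Metric.closedBall (0 : Fin g → ℝ) (bd g)) (hab : cell k a = cell k b) :
    dist a b ≤ 1 / (4 * k) := by
  have hkR : (0 : ℝ) < k := by exact_mod_cast hk
  rw [mem_closedBall_zero_iff, pi_norm_le_iff_of_nonneg bd_nonneg] at ha hb
  have hfl : ∀ (u : Fin g → ℝ) (_ : ∀ i, ‖u i‖ ≤ bd g) (i : Fin g),
      ((cell k u i : ℕ) : ℝ) ≤ (u i + bd g) * (4 * k) ∧
      (u i + bd g) * (4 * k) < (cell k u i : ℕ) + 1 := by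
    intro u hu i
    have h1 := abs_le.1 (hu i)
    have h2 : 0 ≤ (u i + bd g) * (4 * k) := mul_nonneg (by linarith [h1.1]) (by positivity)
    have h3 : (u i + bd g) * (4 * k) ≤ ((8 * k * (2 * g).choose g : ℕ) : ℝ) := by
      push_cast
      rw [← bd_eq]
      nlinarith [h1.2]
    have h4 : ⌊(u i + bd g) * (4 * k)⌋₊ ≤ 8 * k * (2 * g).choose g := by
      exact_mod_cast (Nat.floor_le h2).trans h3
    have h5 : (cell k u i : ℕ) = ⌊(u i + bd g) * (4 * k)⌋₊ := min_eq_left h4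
    rw [h5]
    exact ⟨Nat.floor_le h2, Nat.lt_floor_add_one _⟩
  rw [dist_pi_le_iff (by positivity)]
  intro i
  obtain ⟨h1, h2⟩ := hfl a ha i
  obtain ⟨h3, h4⟩ := hfl b hb i
  rw [hab] at h1 h2
  rw [Real.dist_eq, abs_le, le_div_iff₀ (by positivity), ← neg_div, div_le_iff₀ (by positivity)]
  constructor <;> nlinarith

/-- a value of `f` on the cell -/
noncomputable def rep {g : ℕ} (k : ℕ) (f : (Fin g → ℝ) → ℝ) (c : Fin g → Fin (mc g k)) : ℝ :=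
  open Classical in
  if h : ∃ a ∈ Metric.closedBall (0 : Fin g → ℝ) (bd g), cell k a = c then f h.choose else 0

theorem rep_abs {g : ℕ} (k : ℕ) {f : (Fin g → ℝ) → ℝ} (hf : IsTest f) (c : Fin g → Fin (mc g k)) :
    |rep k f c| ≤ 1 := by
  unfold rep
  split_ifs
  · exact hf.2 _
  · simp

theorem rep_close {g k : ℕ} (hk : 1 ≤ k) {f : (Fin g → ℝ) → ℝ} (hf : IsTest f) {a : Fin g → ℝ}
    (ha : a ∈ Metric.closedBall (0 : Fin g → ℝ) (bd g)) :
    |f a - rep k f (cell k a)| ≤ 1 / (2 * (2 * k)) := by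
  have h : ∃ b ∈ Metric.closedBall (0 : Fin g → ℝ) (bd g), cell k b = cell k a := ⟨a, ha, rfl⟩
  unfold rep
  rw [dif_pos h]
  obtain ⟨h1, h2⟩ := h.choose_spec
  have h3 := hf.1.dist_le_mul a h.choose
  rw [NNReal.coe_one, one_mul, Real.dist_eq] at h3
  refine h3.trans ((cell_close hk ha h1 h2.symm).trans (le_of_eq ?_))
  ring

/-! ### the classes of the twists -/

section

variable {K : Type} [Field K] [NumberField K] {g : ℕ} {R : Type} [CommRing R]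
  {ρ : Gal(Kbar K/K) →* GL (Fin g ⊕ Fin g) R} {ι : R →+* ℂ}
  {C : Subgroup (GL (Fin g ⊕ Fin g) ℂ)} {x : HeightOneSpectrum (𝓞 K) → C}

/-- off a finite set that does not depend on `d` -/
theorem cls_unif (hsymp : IsSymplectic ρ) (hunr : IsUnramified K (Kbar K) ρ)
    (hC : IsSatoTateGroup (extend ρ ι) C)
    (hx : IsClassSystem K (Kbar K) (extend ρ ι) C x) {Z : Set (HeightOneSpectrum (𝓞 K))}
    (hZ : Z.Finite) : ∃ Z' : Set (HeightOneSpectrum (𝓞 K)), Z'.Finite ∧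
      ∀ (d : 𝓞 K) (y : HeightOneSpectrum (𝓞 K) → C), IsTwistSystem (extend ρ ι) C Z d y →
      ∀ v, v ∉ Z' → 2 * d ∉ v.asIdeal →
        (ch d v = 1 ∧ lp (y v : GL (Fin g ⊕ Fin g) ℂ) = lp (x v : GL (Fin g ⊕ Fin g) ℂ)) ∨
        (ch d v = -1 ∧ lp (y v : GL (Fin g ⊕ Fin g) ℂ) = lp (-(x v : GL (Fin g ⊕ Fin g) ℂ))) := by
  have h1 := Cls.all_frob (extend ρ ι) (unr hunr) (Final.isSim_of ρ ι hsymp) hC hx
    (fun T hT => Fld.exists_not_mem T hT)
  refine ⟨_, h1.union hZ, ?_⟩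
  rintro d y ⟨r', ⟨s, hs, htw⟩, hy⟩ v hv h2d
  simp only [Set.mem_union, not_or, Set.mem_setOf_eq, not_not] at hv
  obtain ⟨h2, hvZ⟩ := hv
  obtain ⟨σ, hσ, h, -, he⟩ := hy v hvZ h2d
  obtain ⟨h', -, he'⟩ := h2 σ hσ
  rw [Cls.cls_iff] at he
  rcases frob_sqrt hσ h2d hs with ⟨h3, h4⟩ | ⟨h3, h4⟩
  · refine Or.inl ⟨h4, funext fun i => ?_⟩
    unfold lp
    rw [← cf_conj (i + 1) h (y v : GL (Fin g ⊕ Fin g) ℂ), he,
      ← cf_conj (i + 1) h' (x v : GL (Fin g ⊕ Fin g) ℂ), he', (htw σ).1 h3]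
  · refine Or.inr ⟨h4, funext fun i => ?_⟩
    unfold lp
    rw [← cf_conj (i + 1) h (y v : GL (Fin g ⊕ Fin g) ℂ), he, cf_neg,
      ← cf_conj (i + 1) h' (x v : GL (Fin g ⊕ Fin g) ℂ), he', (htw σ).2 h3, mul_neg, cf_neg]

/-- the constant -/
noncomputable def bnd (g n k : ℕ) (c : ℝ) : ℝ :=
  9 * (8 * k * (2 * g).choose g + 1) ^ g / (⌊c⌋₊ + 1 - c) *
    (1024 * (⌊c⌋₊ + 1) * (n * k * (8 * k * (2 * g).choose g + 1) ^ g) ^ 2) ^ (⌊c⌋₊ + 1)

theorem core (hsymp : IsSymplectic ρ) (hunr : IsUnramified K (Kbar K) ρ)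
    (hC : IsSatoTateGroup (extend ρ ι) C)
    (hx : IsClassSystem K (Kbar K) (extend ρ ι) C x) {Z : Set (HeightOneSpectrum (𝓞 K))}
    (hZ : Z.Finite) {c : ℝ} (hc0 : 0 < c) {k : ℕ} (hk : 1 ≤ k) :
    ∀ᶠ N : ℕ in atTop, ∀ E : Set ℤ, (∀ d ∈ E, Squarefree d ∧ |(d : ℝ)| ≤ (N : ℝ) ^ c ∧
      ∃ y : HeightOneSpectrum (𝓞 K) → C, IsTwistSystem (extend ρ ι) C Z (d : 𝓞 K) y ∧
      ∃ f : (Fin g → ℝ) → ℝ, IsTest f ∧ 3 / (4 * (k : ℝ)) ≤
        |mean K (fun v => f (lp (y v : GL (Fin g ⊕ Fin g) ℂ))) N -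
          mean K (fun v => (f (lp (x v : GL (Fin g ⊕ Fin g) ℂ)) +
            f (lp (-(x v : GL (Fin g ⊕ Fin g) ℂ)))) / 2) N|) →
      (E.ncard : ℝ) ≤ bnd g (Module.finrank ℚ K) k c * Real.log N ^ ⌊c⌋₊ := by
  have hkR : (0 : ℝ) < k := by exact_mod_cast hk
  have hk1 : (1 : ℝ) ≤ k := by exact_mod_cast hk
  obtain ⟨Z', hZ', hcls⟩ := cls_unif hsymp hunr hC hx hZ
  have hm1 : ((⌊c⌋₊ : ℕ) : ℝ) ≤ c := Nat.floor_le hc0.le
  have hm2 : c < (⌊c⌋₊ : ℕ) + 1 := Nat.lt_floor_add_one c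
  set m : ℕ := ⌊c⌋₊ with hm
  set ν : ℝ := (Fintype.card (Fin g → Fin (mc g k)) : ℝ) with hν
  have hνe : ν = (8 * k * (2 * g).choose g + 1) ^ g := by
    rw [hν, Fintype.card_fun, Fintype.card_fin, Fintype.card_fin]
    unfold mc
    push_cast
    rfl
  have hν1 : 1 ≤ ν := by
    rw [hνe]
    refine one_le_pow₀ ?_
    have : (0 : ℝ) ≤ 8 * k * (2 * g).choose g := by positivity
    linarith
  have hδ0 : 0 < 1 / (2 * (2 * (k : ℝ)) * ν) := by positivity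
  have hδ1 : 1 / (2 * (2 * (k : ℝ)) * ν) ≤ 1 := by
    rw [div_le_one (by positivity)]
    nlinarith
  filter_upwards [few K hc0 hm1 hm2 hδ0 hδ1, mean_bad hZ' hc0 (ε := 1 / (4 * (k : ℝ))) (by positivity)]
    with N h1 h2 E hE
  have hEf : E.Finite := by
    have h3 : E ⊆ Set.Icc (-⌈(N : ℝ) ^ c⌉) ⌈(N : ℝ) ^ c⌉ := by
      intro d hd
      have h4 := abs_le.1 (hE d hd).2.1
      have h5 := Int.le_ceil ((N : ℝ) ^ c)
      constructor
      · have : (-⌈(N : ℝ) ^ c⌉ : ℝ) ≤ d := by linarith [h4.1]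
        exact_mod_cast this
      · have : (d : ℝ) ≤ ⌈(N : ℝ) ^ c⌉ := by linarith [h4.2]
        exact_mod_cast this
    exact (Set.finite_Icc _ _).subset h3
  rw [Set.ncard_eq_toFinset_card E hEf]
  have hT : ∀ d ∈ hEf.toFinset, d ∈ E := fun d hd => hEf.mem_toFinset.1 hd
  have h4 := count (K := K) (T := hEf.toFinset) (N := N) (ι := Fin g → Fin (mc g k))
    (k := 2 * (k : ℝ)) (by positivity)
    (Q := B0 (Module.finrank ℚ K) m c (1 / (2 * (2 * (k : ℝ)) * ν)) * Real.log N ^ m)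
    (fun h hh T' hT' hd => h1 h hh T' fun d hd' =>
      ⟨(hE d (hT d (hT' hd'))).1, (hE d (hT d (hT' hd'))).2.1, hd d hd'⟩)
    (fun v => cell k (lp (x v : GL (Fin g ⊕ Fin g) ℂ)))
    (fun v => cell k (lp (-(x v : GL (Fin g ⊕ Fin g) ℂ)))) ?_
  · refine h4.trans (le_of_eq ?_)
    rw [← hν, ← mul_assoc]
    congr 1
    unfold B0 bnd
    rw [← hm, ← hνe]
    have e1 : 64 * ((m : ℝ) + 1) * (Module.finrank ℚ K : ℝ) ^ 2 / (1 / (2 * (2 * (k : ℝ)) * ν)) ^ 2 =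
        1024 * (m + 1) * (Module.finrank ℚ K * k * ν) ^ 2 := by
      field_simp
      ring
    rw [e1]
    ring
  · intro d hd
    obtain ⟨hsf, hdN, y, hy, f, hf, hge⟩ := hE d (hT d hd)
    set A : HeightOneSpectrum (𝓞 K) → ℝ := fun v => f (lp (x v : GL (Fin g ⊕ Fin g) ℂ)) with hA
    set A' : HeightOneSpectrum (𝓞 K) → ℝ := fun v => f (lp (-(x v : GL (Fin g ⊕ Fin g) ℂ)))
      with hA'
    refine ⟨rep k f, A, A', rep_abs k hf, fun v => rep_close hk hf (lp_mem hC.compact (x v)),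
      fun v => rep_close hk hf (lp_neg_mem hC.compact (x v)), ?_⟩
    have h5 := h2 d hsf.ne_zero hdN (fun v => f (lp (y v : GL (Fin g ⊕ Fin g) ℂ)))
      (fun v => 1 * ((A v + A' v) / 2) + 1 * (ch (d : 𝓞 K) v * ((A v - A' v) / 2)))
      (fun v => ?_) (fun v hv h2d => ?_)
    · rw [mn_lin] at h5
      have h6 : |mean K (fun v => f (lp (y v : GL (Fin g ⊕ Fin g) ℂ))) N -
          mean K (fun v => (A v + A' v) / 2) N| ≤
          |mean K (fun v => f (lp (y v : GL (Fin g ⊕ Fin g) ℂ))) N -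
            (1 * mean K (fun v => (A v + A' v) / 2) N +
              1 * mean K (fun v => ch (d : 𝓞 K) v * ((A v - A' v) / 2)) N)| +
          |mean K (fun v => ch (d : 𝓞 K) v * ((A v - A' v) / 2)) N| := by
        refine le_trans (le_of_eq ?_) (abs_add_le _ _)
        congr 1
        ring
      have e1 : (3 : ℝ) / (4 * k) = 1 / (4 * k) + 1 / (2 * k) := by field_simp; norm_num
      rw [e1] at hge
      have h7 : |mean K (fun v => f (lp (y v : GL (Fin g ⊕ Fin g) ℂ))) N -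
            (1 * mean K (fun v => (A v + A' v) / 2) N +
              1 * mean K (fun v => ch (d : 𝓞 K) v * ((A v - A' v) / 2)) N)| ≤ 1 / (4 * k) := h5
      have h8 : 1 / (2 * (k : ℝ)) ≤ |mean K (fun v => ch (d : 𝓞 K) v * ((A v - A' v) / 2)) N| := by
        linarith
      exact h8
    · have e1 := hf.2 (lp (y v : GL (Fin g ⊕ Fin g) ℂ))
      have e2 := hf.2 (lp (x v : GL (Fin g ⊕ Fin g) ℂ))
      have e3 := hf.2 (lp (-(x v : GL (Fin g ⊕ Fin g) ℂ)))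
      have e4 := ch_abs (d : 𝓞 K) v
      rw [abs_le] at e1 e2 e3 e4 ⊢
      simp only [hA, hA']
      constructor <;> nlinarith [mul_nonneg (by linarith [e4.1] : 0 ≤ 1 + ch (d : 𝓞 K) v)
        (by linarith [e2.2] : 0 ≤ 1 - f (lp (x v : GL (Fin g ⊕ Fin g) ℂ))),
        mul_nonneg (by linarith [e4.1] : 0 ≤ 1 + ch (d : 𝓞 K) v)
        (by linarith [e2.1] : 0 ≤ 1 + f (lp (x v : GL (Fin g ⊕ Fin g) ℂ))),
        mul_nonneg (by linarith [e4.2] : 0 ≤ 1 - ch (d : 𝓞 K) v)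
        (by linarith [e3.2] : 0 ≤ 1 - f (lp (-(x v : GL (Fin g ⊕ Fin g) ℂ)))),
        mul_nonneg (by linarith [e4.2] : 0 ≤ 1 - ch (d : 𝓞 K) v)
        (by linarith [e3.1] : 0 ≤ 1 + f (lp (-(x v : GL (Fin g ⊕ Fin g) ℂ)))), e1.1, e1.2]
    · rcases hcls _ y hy v hv h2d with ⟨e1, e2⟩ | ⟨e1, e2⟩
      · simp only [hA, hA']
        rw [e1, e2]
        ring
      · simp only [hA, hA']
        rw [e1, e2]
        ring

end

end Pool.Agent.U681.UT
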