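import Pool.Agent.U681.UT.Defs
import Pool.Agent.U681.STw.Mn
import Pool.Agent.U681.GF.Nt
import Mathlib

/-! The symmetry of the law of the `L`-polynomials; uniform convergence. -/

set_option autoImplicit false

namespace Pool.Agent.U681.UT

open NumberField IsDedekindDomain Filter Topology MeasureTheory
open Pool.Agent.K4H40.ST Pool.Agent.K4H40.ST.Zar Pool.Agent.U681.STw
open Pool.Agent.U681.GF (bd bd_nonneg cf_bound)

variable {g : ℕ}

/-- the space -/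
abbrev Bl (g : ℕ) : Type := Metric.closedBall (0 : Fin g → ℝ) (bd g)

instance : CompactSpace (Bl g) := isCompact_iff_compactSpace.1 (isCompact_closedBall _ _)

theorem continuous_lp : Continuous (lp (g := g)) := continuous_pi fun i => continuous_cf (i + 1)

theorem lp_mem {C : Subgroup (GL (Fin g ⊕ Fin g) ℂ)}
    (hC : IsCompact (C : Set (GL (Fin g ⊕ Fin g) ℂ))) (c : C) :
    lp (c : GL (Fin g ⊕ Fin g) ℂ) ∈ Metric.closedBall (0 : Fin g → ℝ) (bd g) := by
  rw [mem_closedBall_zero_iff, pi_norm_le_iff_of_nonneg bd_nonneg]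
  intro i
  exact cf_bound hC c.2 (i + 1)

theorem lp_neg_mem {C : Subgroup (GL (Fin g ⊕ Fin g) ℂ)}
    (hC : IsCompact (C : Set (GL (Fin g ⊕ Fin g) ℂ))) (c : C) :
    lp (-(c : GL (Fin g ⊕ Fin g) ℂ)) ∈ Metric.closedBall (0 : Fin g → ℝ) (bd g) := by
  rw [mem_closedBall_zero_iff, pi_norm_le_iff_of_nonneg bd_nonneg]
  intro i
  have h := cf_bound hC c.2 (i + 1)
  change |cf (i + 1) (-(c : GL (Fin g ⊕ Fin g) ℂ))| ≤ bd g
  rw [cf_neg, abs_mul, abs_pow, abs_neg, abs_one, one_pow, one_mul]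
  exact h

/-- polynomials are dense -/
theorem exists_near {f : (Fin g → ℝ) → ℝ} (hf : Continuous f) {ε : ℝ} (hε : 0 < ε) :
    ∃ p : MvPolynomial (Fin g) ℝ, ∀ a ∈ Metric.closedBall (0 : Fin g → ℝ) (bd g),
      |MvPolynomial.eval a p - f a| < ε := by
  let co : Fin g → C(Bl g, ℝ) := fun i =>
    ⟨fun x => x.1 i, (continuous_apply i).comp continuous_subtype_val⟩
  let A : Subalgebra ℝ C(Bl g, ℝ) := (MvPolynomial.aeval co : MvPolynomial (Fin g) ℝ →ₐ[ℝ] _).range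
  have hev : ∀ (p : MvPolynomial (Fin g) ℝ) (x : Bl g),
      (MvPolynomial.aeval co p : C(Bl g, ℝ)) x = MvPolynomial.eval x.1 p := by
    intro p x
    have h1 : (ContinuousMap.evalAlgHom ℝ ℝ x).comp (MvPolynomial.aeval co) =
        (MvPolynomial.aeval x.1 : MvPolynomial (Fin g) ℝ →ₐ[ℝ] ℝ) := by
      ext i
      simp [co]
    have h2 := DFunLike.congr_fun h1 p
    rw [MvPolynomial.aeval_eq_eval] at h2
    exact h2
  have hA : A.SeparatesPoints := by
    intro x y hxy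
    have h1 : ∃ i, x.1 i ≠ y.1 i := by
      by_contra hcon
      push Not at hcon
      exact hxy (Subtype.ext (funext hcon))
    obtain ⟨i, hi⟩ := h1
    refine ⟨co i, ⟨co i, ⟨MvPolynomial.X i, ?_⟩, rfl⟩, hi⟩
    exact MvPolynomial.aeval_X co i
  obtain ⟨⟨h, p, hp⟩, hh⟩ := ContinuousMap.exists_mem_subalgebra_near_continuous_of_separatesPoints
    A hA (fun x : Bl g => f x.1) (hf.comp continuous_subtype_val) ε hε
  refine ⟨p, fun a ha => ?_⟩
  have h1 := hh ⟨a, ha⟩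
  rw [Real.norm_eq_abs] at h1
  rw [← hev p ⟨a, ha⟩]
  have h2 : (MvPolynomial.aeval co p : C(Bl g, ℝ)) = h := hp
  rw [h2]
  exact h1

/-! ### the symmetry -/

section

variable {C : Subgroup (GL (Fin g ⊕ Fin g) ℂ)}

theorem symm_mv (hC : IsCompact (C : Set (GL (Fin g ⊕ Fin g) ℂ)))
    (hsp : ∀ c ∈ C, c.val ∈ Matrix.symplecticGroup (Fin g) ℂ)
    (h1 : (-1 : GL (Fin g ⊕ Fin g) ℂ) ∈ zar (C : Set (GL (Fin g ⊕ Fin g) ℂ)))
    [MeasurableSpace C] [BorelSpace C] (μ : Measure C) [IsProbabilityMeasure μ]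
    [μ.IsMulLeftInvariant] (p : MvPolynomial (Fin g) ℝ) :
    ∫ c : C, MvPolynomial.eval (lp (-(c : GL (Fin g ⊕ Fin g) ℂ))) p ∂μ =
      ∫ c : C, MvPolynomial.eval (lp (c : GL (Fin g ⊕ Fin g) ℂ)) p ∂μ := by
  choose P hP using fun i : Fin g => exists_poly (n := Fin g ⊕ Fin g) ((i : ℕ) + 1)
  set q : MvPolynomial ((Fin g ⊕ Fin g) × (Fin g ⊕ Fin g)) ℂ :=
    MvPolynomial.bind₁ P (MvPolynomial.map Complex.ofRealHom p) with hq
  have hev : ∀ c : GL (Fin g ⊕ Fin g) ℂ, ev c q =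
      MvPolynomial.eval (fun i : Fin g => c.val.charpolyRev.coeff (i + 1))
        (MvPolynomial.map Complex.ofRealHom p) := by
    intro c
    have h2 : ev c q = (MvPolynomial.eval fun r : (Fin g ⊕ Fin g) × (Fin g ⊕ Fin g) =>
      c.val r.1 r.2) (MvPolynomial.bind₁ P (MvPolynomial.map Complex.ofRealHom p)) := rfl
    have h3 : (fun i : Fin g => c.val.charpolyRev.coeff (i + 1)) = fun i : Fin g =>
        MvPolynomial.eval (fun r : (Fin g ⊕ Fin g) × (Fin g ⊕ Fin g) => c.val r.1 r.2) (P i) := by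
      funext i
      exact (hP i c).symm
    rw [h2, h3]
    exact eval_bind _ _ _
  have hre : ∀ a : Fin g → ℝ, MvPolynomial.eval (fun i => ((a i : ℝ) : ℂ))
      (MvPolynomial.map Complex.ofRealHom p) = ((MvPolynomial.eval a p : ℝ) : ℂ) := by
    intro a
    exact MvPolynomial.map_eval Complex.ofRealHom a p |>.symm
  have h2 := int_zar hC μ q h1
  have e1 : ∀ c : C, ev ((-1 : GL (Fin g ⊕ Fin g) ℂ) * (c : GL (Fin g ⊕ Fin g) ℂ)) q =
      ((MvPolynomial.eval (lp (-(c : GL (Fin g ⊕ Fin g) ℂ))) p : ℝ) : ℂ) := by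
    intro c
    rw [hev, neg_one_mul, ← hre]
    congr 1
    congr 1
    funext i
    rw [coeff_neg, ← cf_real hC hsp c.2 (i + 1)]
    unfold lp
    rw [cf_neg]
    push_cast
    rfl
  have e2 : ∀ c : C, ev (c : GL (Fin g ⊕ Fin g) ℂ) q =
      ((MvPolynomial.eval (lp (c : GL (Fin g ⊕ Fin g) ℂ)) p : ℝ) : ℂ) := by
    intro c
    rw [hev, ← hre]
    congr 1
    congr 1
    funext i
    rw [← cf_real hC hsp c.2 (i + 1)]
    rfl
  simp_rw [e1, e2] at h2
  rw [integral_complex_ofReal, integral_complex_ofReal] at h2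
  exact_mod_cast h2

theorem integ_lp (hC : IsCompact (C : Set (GL (Fin g ⊕ Fin g) ℂ)))
    [MeasurableSpace C] [BorelSpace C] (μ : Measure C) [IsProbabilityMeasure μ]
    {f : (Fin g → ℝ) → ℝ} (hf : Continuous f) :
    Integrable (fun c : C => f (lp (c : GL (Fin g ⊕ Fin g) ℂ))) μ ∧
      Integrable (fun c : C => f (lp (-(c : GL (Fin g ⊕ Fin g) ℂ)))) μ := by
  have : CompactSpace C := isCompact_iff_compactSpace.1 hC
  have h1 : Continuous fun c : C => f (lp (c : GL (Fin g ⊕ Fin g) ℂ)) :=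
    hf.comp (continuous_lp.comp continuous_subtype_val)
  have h2 : Continuous fun c : C => f (lp (-(c : GL (Fin g ⊕ Fin g) ℂ))) := by
    have h3 : (fun c : C => f (lp (-(c : GL (Fin g ⊕ Fin g) ℂ)))) = fun c : C =>
        f (fun i => (-1) ^ ((i : ℕ) + 1) * lp (c : GL (Fin g ⊕ Fin g) ℂ) i) := by
      funext c
      congr 1
      funext i
      exact cf_neg _ _
    rw [h3]
    refine hf.comp (continuous_pi fun i => continuous_const.mul ?_)
    exact (continuous_apply i).comp (continuous_lp.comp continuous_subtype_val)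
  exact ⟨h1.integrable_of_hasCompactSupport (HasCompactSupport.of_compactSpace _),
    h2.integrable_of_hasCompactSupport (HasCompactSupport.of_compactSpace _)⟩

theorem symm_int (hC : IsCompact (C : Set (GL (Fin g ⊕ Fin g) ℂ)))
    (hsp : ∀ c ∈ C, c.val ∈ Matrix.symplecticGroup (Fin g) ℂ)
    (h1 : (-1 : GL (Fin g ⊕ Fin g) ℂ) ∈ zar (C : Set (GL (Fin g ⊕ Fin g) ℂ)))
    [MeasurableSpace C] [BorelSpace C] (μ : Measure C) [IsProbabilityMeasure μ]
    [μ.IsMulLeftInvariant] {f : (Fin g → ℝ) → ℝ} (hf : Continuous f) :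
    ∫ c : C, f (lp (-(c : GL (Fin g ⊕ Fin g) ℂ))) ∂μ =
      ∫ c : C, f (lp (c : GL (Fin g ⊕ Fin g) ℂ)) ∂μ := by
  refine eq_of_forall_dist_le fun ε hε => ?_
  obtain ⟨p, hp⟩ := exists_near (g := g) hf (ε := ε / 2) (by positivity)
  have hpc : Continuous fun a : Fin g → ℝ => MvPolynomial.eval a p := MvPolynomial.continuous_eval p
  obtain ⟨i1, i2⟩ := integ_lp hC μ hf
  obtain ⟨j1, j2⟩ := integ_lp hC μ hpc
  have h2 : dist (∫ c : C, f (lp (-(c : GL (Fin g ⊕ Fin g) ℂ))) ∂μ)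
      (∫ c : C, MvPolynomial.eval (lp (-(c : GL (Fin g ⊕ Fin g) ℂ))) p ∂μ) ≤ ε / 2 := by
    rw [dist_eq_norm, ← integral_sub i2 j2]
    refine (norm_integral_le_of_norm_le_const (C := ε / 2) (Eventually.of_forall fun c => ?_)).trans ?_
    · rw [Real.norm_eq_abs, abs_sub_comm]
      exact (hp _ (lp_neg_mem hC c)).le
    · simp
  have h3 : dist (∫ c : C, MvPolynomial.eval (lp (c : GL (Fin g ⊕ Fin g) ℂ)) p ∂μ)
      (∫ c : C, f (lp (c : GL (Fin g ⊕ Fin g) ℂ)) ∂μ) ≤ ε / 2 := by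
    rw [dist_eq_norm, ← integral_sub j1 i1]
    refine (norm_integral_le_of_norm_le_const (C := ε / 2) (Eventually.of_forall fun c => ?_)).trans ?_
    · rw [Real.norm_eq_abs]
      exact (hp _ (lp_mem hC c)).le
    · simp
  rw [symm_mv hC hsp h1 μ p] at h2
  linarith [dist_triangle (∫ c : C, f (lp (-(c : GL (Fin g ⊕ Fin g) ℂ))) ∂μ)
    (∫ c : C, MvPolynomial.eval (lp (c : GL (Fin g ⊕ Fin g) ℂ)) p ∂μ)
    (∫ c : C, f (lp (c : GL (Fin g ⊕ Fin g) ℂ)) ∂μ)]

end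

/-! ### uniform convergence -/

theorem test_restrict {f : (Fin g → ℝ) → ℝ} (hf : IsTest f) :
    Pool.Agent.W529.ST.Test fun a : Bl g => f a.1 := by
  refine ⟨?_, fun a => hf.2 _⟩
  have h := hf.1.comp (LipschitzWith.subtype_val (Metric.closedBall (0 : Fin g → ℝ) (bd g)))
  rw [one_mul] at h
  exact h

/-- a finite net of the test functions -/
theorem exists_net' (g : ℕ) {ε : ℝ} (hε : 0 < ε) :
    ∃ (s : Finset ((Fin g → ℝ) → ℝ)), (∀ h ∈ s, IsTest h) ∧
      ∀ f, IsTest f → ∃ h ∈ s, ∀ a ∈ Metric.closedBall (0 : Fin g → ℝ) (bd g),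
        |f a - h a| ≤ ε := by
  classical
  obtain ⟨s, h, hh, hnet⟩ := Pool.Agent.W529.ST.exists_net (Bl g) (ε := ε / 2) (by positivity)
  let P : Fin s → Prop := fun i => ∃ f : (Fin g → ℝ) → ℝ, IsTest f ∧
    ∀ x : Bl g, |f x.1 - h i x| ≤ ε / 2
  refine ⟨(Finset.univ : Finset {i // P i}).image fun i => i.2.choose, ?_, ?_⟩
  · intro f hf
    obtain ⟨i, -, rfl⟩ := Finset.mem_image.1 hf
    exact i.2.choose_spec.1
  · intro f hf
    obtain ⟨i, hi⟩ := hnet (fun a => f a.1) (test_restrict hf)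
    have hP : P i := ⟨f, hf, hi⟩
    refine ⟨hP.choose, Finset.mem_image.2 ⟨⟨i, hP⟩, Finset.mem_univ _, rfl⟩, fun a ha => ?_⟩
    have h1 := hi ⟨a, ha⟩
    have h2 := hP.choose_spec.2 ⟨a, ha⟩
    simp only at h1
    rw [abs_le] at h1 h2 ⊢
    constructor <;> linarith [h1.1, h1.2, h2.1, h2.2]

/-- uniformity of the convergence -/
theorem unif {K : Type} [Field K] [NumberField K] {C : Subgroup (GL (Fin g ⊕ Fin g) ℂ)}
    (hC : IsCompact (C : Set (GL (Fin g ⊕ Fin g) ℂ))) (x : HeightOneSpectrum (𝓞 K) → C)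
    [MeasurableSpace C] [BorelSpace C] (μ : Measure C) [IsProbabilityMeasure μ]
    (h : ∀ f : (Fin g → ℝ) → ℝ, Continuous f →
      Tendsto (mean K fun v => f (lp (x v : GL (Fin g ⊕ Fin g) ℂ))) atTop
        (𝓝 (∫ c : C, f (lp (c : GL (Fin g ⊕ Fin g) ℂ)) ∂μ))) {ε : ℝ} (hε : 0 < ε) :
    ∀ᶠ N : ℕ in atTop, ∀ f, IsTest (g := g) f →
      |mean K (fun v => f (lp (x v : GL (Fin g ⊕ Fin g) ℂ))) N -
        ∫ c : C, f (lp (c : GL (Fin g ⊕ Fin g) ℂ)) ∂μ| ≤ ε := by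
  obtain ⟨s, hs, hnet⟩ := exists_net' g (ε := ε / 3) (by positivity)
  have hint : ∀ f, IsTest (g := g) f →
      Integrable (fun c : C => f (lp (c : GL (Fin g ⊕ Fin g) ℂ))) μ :=
    fun f hf => (integ_lp hC μ hf.1.continuous).1
  have h1 : ∀ᶠ N : ℕ in atTop, ∀ f ∈ s,
      |mean K (fun v => f (lp (x v : GL (Fin g ⊕ Fin g) ℂ))) N -
        ∫ c : C, f (lp (c : GL (Fin g ⊕ Fin g) ℂ)) ∂μ| < ε / 3 := by
    rw [Filter.eventually_all_finset]
    intro f hf
    have h2 := ((h f (hs f hf).1.continuous).sub_const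
      (∫ c : C, f (lp (c : GL (Fin g ⊕ Fin g) ℂ)) ∂μ)).abs
    rw [sub_self, abs_zero] at h2
    exact h2.eventually_lt_const (by positivity)
  filter_upwards [h1] with N hN f hf
  obtain ⟨h', hh, hfh⟩ := hnet f hf
  have h2 := hN h' hh
  have h3 : |mean K (fun v => f (lp (x v : GL (Fin g ⊕ Fin g) ℂ))) N -
      mean K (fun v => h' (lp (x v : GL (Fin g ⊕ Fin g) ℂ))) N| ≤ ε / 3 :=
    Pool.Agent.W529.ST.mean_close (fun v => hfh _ (lp_mem hC (x v))) N
  have h4 : |∫ c : C, h' (lp (c : GL (Fin g ⊕ Fin g) ℂ)) ∂μ -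
      ∫ c : C, f (lp (c : GL (Fin g ⊕ Fin g) ℂ)) ∂μ| ≤ ε / 3 := by
    rw [← integral_sub (hint h' (hs h' hh)) (hint f hf), ← Real.norm_eq_abs]
    refine (norm_integral_le_of_norm_le_const (C := ε / 3) (Eventually.of_forall fun c => ?_)).trans ?_
    · rw [Real.norm_eq_abs, abs_sub_comm]
      exact hfh _ (lp_mem hC c)
    · simp
  rw [abs_lt] at h2
  rw [abs_le] at h3 h4 ⊢
  constructor <;> linarith [h2.1, h2.2, h3.1, h3.2, h4.1, h4.2]

end Pool.Agent.U681.UT
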